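import Pool.Agent.R414.FF.A

/-!
# Binary forms over `F[t]` and points of the projective line
-/

set_option autoImplicit false

open Polynomial Pool.Agent.R414.FF

namespace Pool.Agent.R414.FG

variable {F : Type*} [Field F]

/-- the value at `(a, b)` of the form of degree `d` with dehomogenization `p` -/
noncomputable def hev (d : ℕ) (p : F[X][X]) (v : F[X] × F[X]) : F[X] :=
  ∑ j ∈ Finset.range (d + 1), p.coeff j * v.1 ^ j * v.2 ^ (d - j)

/-- the points of the projective line over `F(t)` in normalized coprime coordinates -/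
def Pt (F : Type*) [Field F] : Set (F[X] × F[X]) :=
  {v | IsCoprime v.1 v.2 ∧ (v.2.Monic ∨ v = (1, 0))}

/-- the height of a point -/
noncomputable def ht (v : F[X] × F[X]) : ℕ := max v.1.natDegree v.2.natDegree

theorem pt_ext {v w : F[X] × F[X]} (hv : v ∈ Pt F) (hw : w ∈ Pt F) (h : v.1 * w.2 = v.2 * w.1) :
    v = w := by
  obtain ⟨hv1, hv2⟩ := hv
  obtain ⟨hw1, hw2⟩ := hw
  rcases hv2 with hv2 | rfl
  · rcases hw2 with hw2 | rfl
    · have h1 : v.2 ∣ w.2 := by
        apply hv1.symm.dvd_of_dvd_mul_left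
        rw [h]
        exact Dvd.intro _ rfl
      have h2 : w.2 ∣ v.2 := by
        apply hw1.symm.dvd_of_dvd_mul_right
        rw [← h]
        exact Dvd.intro_left _ rfl
      have h3 := eq_of_monic_of_associated hv2 hw2 (associated_of_dvd_dvd h1 h2)
      apply Prod.ext _ h3
      rw [← h3, mul_comm] at h
      exact mul_left_cancel₀ hv2.ne_zero h
    · exfalso
      simp only [mul_zero, mul_one] at h
      exact hv2.ne_zero h.symm
  · simp only [one_mul, zero_mul] at h
    rcases hw2 with hw2 | rfl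
    · exact absurd h hw2.ne_zero
    · rfl

theorem canon (u : F[X] × F[X]) (hu : u ≠ 0) :
    ∃ Q ∈ Pt F, ∃ c : F[X], c ≠ 0 ∧ u = (c * Q.1, c * Q.2) := by
  classical
  by_cases h2 : u.2 = 0
  · refine ⟨(1, 0), ⟨isCoprime_one_left, Or.inr rfl⟩, u.1, ?_, ?_⟩
    · intro h1
      exact hu (Prod.ext h1 h2)
    · rw [mul_one, mul_zero]
      exact Prod.ext rfl h2
  · set g := EuclideanDomain.gcd u.1 u.2 with hg
    have hg0 : g ≠ 0 := fun h => h2 (EuclideanDomain.gcd_eq_zero_iff.mp h).2
    obtain ⟨a, ha⟩ := EuclideanDomain.gcd_dvd_left u.1 u.2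
    obtain ⟨b, hb⟩ := EuclideanDomain.gcd_dvd_right u.1 u.2
    rw [← hg] at ha hb
    have hb0 : b ≠ 0 := by
      rintro rfl
      rw [mul_zero] at hb
      exact h2 hb
    have hcop : IsCoprime a b := by
      have h3 := EuclideanDomain.gcd_eq_gcd_ab u.1 u.2
      rw [← hg] at h3
      refine ⟨EuclideanDomain.gcdA u.1 u.2, EuclideanDomain.gcdB u.1 u.2, ?_⟩
      apply mul_left_cancel₀ hg0
      rw [mul_one]
      conv_rhs => rw [h3]
      rw [ha, hb]
      ring_nf
    set c := b.leadingCoeff with hc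
    have hc0 : c ≠ 0 := leadingCoeff_ne_zero.mpr hb0
    have hu1 : IsUnit (C c⁻¹ : F[X]) := isUnit_C.mpr (isUnit_iff_ne_zero.mpr (inv_ne_zero hc0))
    have hcc : (C c : F[X]) * C c⁻¹ = 1 := by rw [← C_mul, mul_inv_cancel₀ hc0, C_1]
    refine ⟨(C c⁻¹ * a, C c⁻¹ * b), ⟨?_, Or.inl ?_⟩, g * C c, ?_, ?_⟩
    · exact (isCoprime_mul_unit_left_left hu1 _ _).mpr ((isCoprime_mul_unit_left_right hu1 _ _).mpr hcop)
    · show (C c⁻¹ * b).Monic
      rw [mul_comm]
      exact monic_mul_leadingCoeff_inv hb0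
    · exact mul_ne_zero hg0 (C_ne_zero.mpr hc0)
    · apply Prod.ext
      · show u.1 = g * C c * (C c⁻¹ * a)
        rw [ha]
        linear_combination (-g * a) * hcc
      · show u.2 = g * C c * (C c⁻¹ * b)
        rw [hb]
        linear_combination (-g * b) * hcc

theorem hev_sub (d : ℕ) (p r : F[X][X]) (v : F[X] × F[X]) :
    hev d (p - r) v = hev d p v - hev d r v := by
  unfold hev
  rw [← Finset.sum_sub_distrib]
  apply Finset.sum_congr rfl
  intro j _
  rw [coeff_sub]
  ring

theorem hev_mul (d : ℕ) (a b : F[X]) (u : F[X][X]) (hu : u.coeff (d + 1) = 0) (w : F[X] × F[X]) :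
    hev (d + 1) ((C b * X - C a) * u) w = (b * w.1 - a * w.2) * hev d u w := by
  have h1 : ∀ j, ((C b * X - C a) * u).coeff (j + 1) = b * u.coeff j - a * u.coeff (j + 1) := by
    intro j
    rw [sub_mul, coeff_sub, coeff_C_mul, mul_assoc, coeff_C_mul, coeff_X_mul]
  have h0 : ((C b * X - C a) * u).coeff 0 = - (a * u.coeff 0) := by
    rw [sub_mul, coeff_sub, coeff_C_mul, mul_assoc, coeff_C_mul, coeff_X_mul_zero]
    ring
  generalize (C b * X - C a) * u = P at h1 h0
  have s1 : hev (d + 1) P w = ∑ j ∈ Finset.range (d + 1), P.coeff (j + 1) * w.1 ^ (j + 1) *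
      w.2 ^ (d + 1 - (j + 1)) + P.coeff 0 * w.1 ^ 0 * w.2 ^ (d + 1 - 0) :=
    Finset.sum_range_succ' _ _
  have s2 : ∑ j ∈ Finset.range (d + 1 + 1), a * u.coeff j * w.1 ^ j * w.2 ^ (d + 1 - j) =
      ∑ j ∈ Finset.range (d + 1), a * u.coeff (j + 1) * w.1 ^ (j + 1) *
      w.2 ^ (d + 1 - (j + 1)) + a * u.coeff 0 * w.1 ^ 0 * w.2 ^ (d + 1 - 0) :=
    Finset.sum_range_succ' _ _
  have s3 : ∑ j ∈ Finset.range (d + 1 + 1), a * u.coeff j * w.1 ^ j * w.2 ^ (d + 1 - j) =
      ∑ j ∈ Finset.range (d + 1), a * u.coeff j * w.1 ^ j * w.2 ^ (d + 1 - j) +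
      a * u.coeff (d + 1) * w.1 ^ (d + 1) * w.2 ^ (d + 1 - (d + 1)) :=
    Finset.sum_range_succ _ _
  have s4 : ∑ j ∈ Finset.range (d + 1), P.coeff (j + 1) * w.1 ^ (j + 1) *
      w.2 ^ (d + 1 - (j + 1)) =
      ∑ j ∈ Finset.range (d + 1), b * u.coeff j * w.1 ^ (j + 1) * w.2 ^ (d - j) -
      ∑ j ∈ Finset.range (d + 1), a * u.coeff (j + 1) * w.1 ^ (j + 1) *
      w.2 ^ (d + 1 - (j + 1)) := by
    rw [← Finset.sum_sub_distrib]
    apply Finset.sum_congr rfl
    intro j _
    rw [h1]
    have e : d + 1 - (j + 1) = d - j := by omega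
    rw [e]
    ring
  have s5 : (b * w.1 - a * w.2) * hev d u w =
      ∑ j ∈ Finset.range (d + 1), b * u.coeff j * w.1 ^ (j + 1) * w.2 ^ (d - j) -
      ∑ j ∈ Finset.range (d + 1), a * u.coeff j * w.1 ^ j * w.2 ^ (d + 1 - j) := by
    unfold hev
    rw [Finset.mul_sum, ← Finset.sum_sub_distrib]
    apply Finset.sum_congr rfl
    intro j hj
    rw [Finset.mem_range] at hj
    have e : d + 1 - j = (d - j) + 1 := by omega
    rw [e]
    ring
  rw [hu] at s3
  rw [s1, s4, s5, h0]
  linear_combination s2 - s3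

theorem step {v : F[X] × F[X]} (hv : v ∈ Pt F) {d : ℕ} {p : F[X][X]}
    (hp : p.natDegree ≤ d + 1) (h : hev (d + 1) p v = 0) :
    ∃ u : F[X][X], p = (C v.2 * X - C v.1) * u ∧ u.natDegree ≤ d := by
  obtain ⟨hcop, hb | rfl⟩ := hv
  · obtain ⟨a, b⟩ := v
    simp only at hcop hb
    have hb0 : b ≠ 0 := hb.ne_zero
    set L : F[X][X] := C b * X - C a with hL
    have hL1 : L.coeff 1 = b := by simp [hL]
    have hL0 : L.coeff 0 = -a := by simp [hL]
    have hLprim : L.IsPrimitive := by
      intro r hr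
      rw [C_dvd_iff_dvd_coeff] at hr
      have h1 := hr 1
      have h0 := hr 0
      rw [hL1] at h1
      rw [hL0, dvd_neg] at h0
      exact hcop.isUnit_of_dvd' h0 h1
    set x : RatFunc F := algebraMap F[X] (RatFunc F) a / algebraMap F[X] (RatFunc F) b with hx
    have hbK : algebraMap F[X] (RatFunc F) b ≠ 0 := by
      intro h
      exact hb0 ((map_eq_zero_iff _ (IsFractionRing.injective F[X] (RatFunc F))).mp h)
    have heval : (p.map (algebraMap F[X] (RatFunc F))).eval x = 0 := by
      have h1 : algebraMap F[X] (RatFunc F) (hev (d + 1) p (a, b)) =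
          (algebraMap F[X] (RatFunc F) b) ^ (d + 1) *
            (p.map (algebraMap F[X] (RatFunc F))).eval x := by
        have h2 : (p.map (algebraMap F[X] (RatFunc F))).natDegree < d + 2 :=
          lt_of_le_of_lt natDegree_map_le (by omega)
        rw [eval_eq_sum_range' h2, Finset.mul_sum]
        unfold hev
        rw [map_sum]
        apply Finset.sum_congr rfl
        intro j hj
        rw [Finset.mem_range] at hj
        simp only [map_mul, map_pow, coeff_map]
        rw [hx, div_pow]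
        have e : (algebraMap F[X] (RatFunc F) b) ^ (d + 1) =
            (algebraMap F[X] (RatFunc F) b) ^ j * (algebraMap F[X] (RatFunc F) b) ^ (d + 1 - j) := by
          rw [← pow_add]
          congr 1
          omega
        rw [e]
        field_simp
      rw [h, map_zero] at h1
      rcases mul_eq_zero.mp h1.symm with h2 | h2
      · exact absurd h2 (pow_ne_zero _ hbK)
      · exact h2
    have hdvd : L.map (algebraMap F[X] (RatFunc F)) ∣ p.map (algebraMap F[X] (RatFunc F)) := by
      have h1 : L.map (algebraMap F[X] (RatFunc F)) =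
          C (algebraMap F[X] (RatFunc F) b) * (X - C x) := by
        rw [hL, Polynomial.map_sub, Polynomial.map_mul, map_C, map_X, map_C, mul_sub, ← C_mul, hx,
          mul_div_cancel₀ _ hbK]
      rw [h1]
      have hu : IsUnit (C (algebraMap F[X] (RatFunc F) b)) :=
        isUnit_C.mpr (isUnit_iff_ne_zero.mpr hbK)
      exact (hu.mul_left_dvd).mpr (dvd_iff_isRoot.mpr heval)
    obtain ⟨u, hu⟩ := hLprim.dvd_of_fraction_map_dvd_fraction_map hdvd
    refine ⟨u, hu, ?_⟩
    by_cases hu0 : u = 0
    · rw [hu0]; simp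
    · have hLd : 1 ≤ L.natDegree := by
        apply le_natDegree_of_ne_zero
        rw [hL1]
        exact hb0
      have hL' : L ≠ 0 := by
        intro h0
        rw [h0, coeff_zero] at hL1
        exact hb0 hL1.symm
      rw [hu, natDegree_mul hL' hu0] at hp
      omega
  · refine ⟨-p, by show p = (C (0 : F[X]) * X - C 1) * -p; rw [C_0, C_1]; ring, ?_⟩
    rw [natDegree_neg]
    have h1 : p.coeff (d + 1) = 0 := by
      unfold hev at h
      rw [Finset.sum_range_succ, Finset.sum_eq_zero] at h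
      · simpa using h
      · intro j hj
        rw [Finset.mem_range] at hj
        have : d + 1 - j ≠ 0 := by omega
        simp [this]
    by_contra hcon
    have h2 : p.natDegree = d + 1 := by omega
    rw [← h2, coeff_natDegree, leadingCoeff_eq_zero] at h1
    rw [h1] at h2
    simp at h2

/-- the forms vanishing at given points -/
theorem ker_card_list [Fintype F] (l : List (F[X] × F[X])) (hl : ∀ v ∈ l, v ∈ Pt F)
    (hnd : l.Nodup) (d n : ℕ) (hlen : l.length ≤ d) :
    {p | p ∈ U F (d + 1) n ∧ ∀ v ∈ l, hev d p v = 0}.Finite ∧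
    {p | p ∈ U F (d + 1) n ∧ ∀ v ∈ l, hev d p v = 0}.ncard ≤
      Fintype.card F ^ ((d + 1 - l.length) * (n - (l.map ht).sum)) := by
  classical
  induction l generalizing d n with
  | nil =>
    obtain ⟨h1, h2⟩ := U_card (F := F) (d + 1) n
    have : {p | p ∈ U F (d + 1) n ∧ ∀ v ∈ ([] : List (F[X] × F[X])), hev d p v = 0} =
        U F (d + 1) n := by
      ext p; simp
    rw [this]
    exact ⟨h1, by rw [h2]; simp⟩
  | cons v l ih =>
    obtain ⟨d, rfl⟩ : ∃ d', d = d' + 1 := ⟨d - 1, by simp at hlen; omega⟩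
    have hv := hl v (List.mem_cons_self ..)
    have hl' : ∀ w ∈ l, w ∈ Pt F := fun w hw => hl w (List.mem_cons_of_mem _ hw)
    have hlen' : l.length ≤ d := by simpa using hlen
    obtain ⟨ih1, ih2⟩ := ih hl' (List.nodup_cons.mp hnd).2 d (n - ht v) hlen'
    have hex : ∀ p : F[X][X], p.natDegree ≤ d + 1 → hev (d + 1) p v = 0 →
        ∃ u : F[X][X], p = (C v.2 * X - C v.1) * u ∧ u.natDegree ≤ d :=
      fun p hp h => step hv hp h
    choose! g hg using hex
    have hnat : ∀ p ∈ U F (d + 1 + 1) n, p.natDegree ≤ d + 1 := by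
      intro p hp
      have := hp.1
      by_cases h0 : p = 0
      · rw [h0]; simp
      · have := (natDegree_lt_iff_degree_lt h0).mpr this
        omega
    have hmaps : Set.MapsTo g {p | p ∈ U F (d + 1 + 1) n ∧ ∀ w ∈ v :: l, hev (d + 1) p w = 0}
        {p | p ∈ U F (d + 1) (n - ht v) ∧ ∀ w ∈ l, hev d p w = 0} := by
      rintro p ⟨hp, hpl⟩
      obtain ⟨h1, h2⟩ := hg p (hnat p hp) (hpl v (List.mem_cons_self ..))
      refine ⟨⟨?_, ?_⟩, ?_⟩
      · refine lt_of_le_of_lt degree_le_natDegree ?_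
        exact_mod_cast Nat.lt_succ_of_le h2
      · intro j
        by_cases hu0 : g p = 0
        · rw [hu0, coeff_zero, degree_zero]; exact WithBot.bot_lt_coe _
        · have hL0 : (C v.2 * X - C v.1 : F[X][X]) ≠ 0 := by
            intro h0
            have e1 := congrArg (fun q => q.coeff 1) h0
            have e0 := congrArg (fun q => q.coeff 0) h0
            simp at e1 e0
            have := hv.1
            rw [e1, e0] at this
            exact not_isCoprime_zero_zero this
          have hp0 : p ≠ 0 := by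
            rw [h1]
            exact mul_ne_zero hL0 hu0
          have h3 := tdeg_lt_of_mem hp hp0
          rw [h1, tdeg_mul hL0 hu0] at h3
          have h4 : ht v ≤ tdeg (C v.2 * X - C v.1 : F[X][X]) := by
            unfold ht
            apply max_le
            · have := tdeg_le_iff.mp (le_refl (tdeg (C v.2 * X - C v.1 : F[X][X]))) 0
              simpa using this
            · have := tdeg_le_iff.mp (le_refl (tdeg (C v.2 * X - C v.1 : F[X][X]))) 1
              simpa using this
          have h5 := tdeg_le_iff.mp (le_refl (tdeg (g p))) j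
          refine lt_of_le_of_lt degree_le_natDegree ?_
          have h6 : ((g p).coeff j).natDegree < n - ht v := by omega
          exact_mod_cast h6
      · intro w hw
        have h3 := hpl w (List.mem_cons_of_mem _ hw)
        rw [h1, hev_mul d v.1 v.2 (g p) (coeff_eq_zero_of_natDegree_lt (by omega)) w] at h3
        rcases mul_eq_zero.mp h3 with h4 | h4
        · exfalso
          have h5 : v = w := by
            apply pt_ext hv (hl' w hw)
            linear_combination -h4
          rw [h5] at hnd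
          exact (List.nodup_cons.mp hnd).1 hw
        · exact h4
    have hinj : Set.InjOn g {p | p ∈ U F (d + 1 + 1) n ∧ ∀ w ∈ v :: l, hev (d + 1) p w = 0} := by
      rintro p ⟨hp, hpl⟩ p' ⟨hp', hpl'⟩ h
      obtain ⟨h1, -⟩ := hg p (hnat p hp) (hpl v (List.mem_cons_self ..))
      obtain ⟨h2, -⟩ := hg p' (hnat p' hp') (hpl' v (List.mem_cons_self ..))
      rw [h1, h2, h]
    refine ⟨Set.Finite.of_injOn hmaps hinj ih1, ?_⟩
    refine (Set.ncard_le_ncard_of_injOn _ hmaps hinj ih1).trans (ih2.trans (le_of_eq ?_))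
    congr 2
    · simp
    · simp [Nat.sub_sub]

theorem ker_card [Fintype F] (T : Finset (F[X] × F[X])) (hT : ∀ v ∈ T, v ∈ Pt F) (d n : ℕ)
    (hlen : T.card ≤ d) : {p | p ∈ U F (d + 1) n ∧ ∀ v ∈ T, hev d p v = 0}.Finite ∧
    {p | p ∈ U F (d + 1) n ∧ ∀ v ∈ T, hev d p v = 0}.ncard ≤
      Fintype.card F ^ ((d + 1 - T.card) * (n - ∑ v ∈ T, ht v)) := by
  have h := ker_card_list T.toList (fun v hv => hT v (Finset.mem_toList.mp hv)) T.nodup_toList d n
    (by rw [Finset.length_toList]; exact hlen)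
  rw [Finset.length_toList, Finset.sum_map_toList] at h
  simpa only [Finset.mem_toList] using h

end Pool.Agent.R414.FG
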