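import Pool.Agent.R414.FG.A

/-!
# Heights of images under rational maps
-/

set_option autoImplicit false

open Polynomial Pool.Agent.R414.FF

namespace Pool.Agent.R414.FG

variable {F : Type*} [Field F]

theorem natDegree_det_le' {N : ℕ} (M : Matrix (Fin N) (Fin N) F[X]) (c : ℕ)
    (h : ∀ i j, (M i j).natDegree ≤ c) : M.det.natDegree ≤ N * c := by
  rw [Matrix.det_apply]
  refine natDegree_sum_le_of_forall_le _ _ (fun σ _ => ?_)
  have h1 : (∏ i, M (σ i) i).natDegree ≤ N * c := by
    refine (natDegree_prod_le _ _).trans ?_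
    refine (Finset.sum_le_card_nsmul _ _ c (fun i _ => h _ _)).trans ?_
    simp
  rcases Int.units_eq_one_or (Equiv.Perm.sign σ) with h2 | h2
  · rw [h2, one_smul]; exact h1
  · rw [h2, Units.neg_smul, one_smul, natDegree_neg]; exact h1

theorem natDegree_adjugate_le {N : ℕ} (M : Matrix (Fin N) (Fin N) F[X]) (c : ℕ)
    (h : ∀ i j, (M i j).natDegree ≤ c) (i j : Fin N) : (M.adjugate i j).natDegree ≤ N * c := by
  classical
  rw [Matrix.adjugate_apply]
  apply natDegree_det_le'
  intro a b
  by_cases ha : a = j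
  · subst ha
    rw [Matrix.updateRow_self]
    by_cases hb : b = i
    · subst hb; simp
    · rw [Pi.single_eq_of_ne hb]; simp
  · rw [Matrix.updateRow_ne ha]
    exact h a b

theorem shift_sum {d : ℕ} (g : F[X][X]) (v : F[X] × F[X]) (j : ℕ) (hj : j < d) :
    ∑ i : Fin (d + d), (v.1 ^ (i : ℕ) * v.2 ^ (d + d - 1 - i)) *
      (if (i : ℕ) ∈ Set.Icc j (j + d) then g.coeff (i - j) else 0) =
      v.1 ^ j * v.2 ^ (d - 1 - j) * hev d g v := by
  classical
  rw [Fin.sum_univ_eq_sum_range (fun i => (v.1 ^ i * v.2 ^ (d + d - 1 - i)) *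
      (if i ∈ Set.Icc j (j + d) then g.coeff (i - j) else 0)) (d + d)]
  have h1 : ∑ i ∈ Finset.Ico j (j + d + 1), (v.1 ^ i * v.2 ^ (d + d - 1 - i)) *
      (if i ∈ Set.Icc j (j + d) then g.coeff (i - j) else 0) =
      ∑ i ∈ Finset.range (d + d), (v.1 ^ i * v.2 ^ (d + d - 1 - i)) *
      (if i ∈ Set.Icc j (j + d) then g.coeff (i - j) else 0) := by
    apply Finset.sum_subset
    · intro i hi
      rw [Finset.mem_Ico] at hi
      rw [Finset.mem_range]
      omega
    · intro i _ hi
      rw [Finset.mem_Ico] at hi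
      rw [if_neg, mul_zero]
      rw [Set.mem_Icc]
      omega
  rw [← h1, Finset.sum_Ico_eq_sum_range]
  have e : j + d + 1 - j = d + 1 := by omega
  rw [e]
  unfold hev
  rw [Finset.mul_sum]
  apply Finset.sum_congr rfl
  intro s hs
  rw [Finset.mem_range] at hs
  rw [if_pos (Set.mem_Icc.mpr ⟨by omega, by omega⟩)]
  have e1 : j + s - j = s := by omega
  have e2 : d + d - 1 - (j + s) = (d - 1 - j) + (d - s) := by omega
  rw [e1, e2]
  ring

theorem ht_ineq {d n : ℕ} (hd : 1 ≤ d) {p r : F[X][X]} (hp : p ∈ U F (d + 1) n)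
    (hr : r ∈ U F (d + 1) n) (hres : resultant p r d d ≠ 0) {v : F[X] × F[X]} (hv : v ∈ Pt F) :
    (hev d p v, hev d r v) ≠ 0 ∧ ∀ (Q : F[X] × F[X]) (c : F[X]),
      (hev d p v, hev d r v) = (c * Q.1, c * Q.2) → d * ht v ≤ 2 * d * n + ht Q := by
  classical
  set S := sylvester p r d d with hS
  have hdet : S.det ≠ 0 := hres
  let m : Fin (d + d) → F[X] := fun i => v.1 ^ (i : ℕ) * v.2 ^ (d + d - 1 - i)
  have hcast : ∀ j : Fin d, (Matrix.vecMul m S) (Fin.castAdd d j) =
      v.1 ^ (j : ℕ) * v.2 ^ (d - 1 - j) * hev d r v := by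
    intro j
    rw [← shift_sum r v j j.2]
    simp only [Matrix.vecMul, dotProduct, hS, sylvester, Matrix.of_apply, Fin.addCases_left, m]
  have hnat : ∀ j : Fin d, (Matrix.vecMul m S) (Fin.natAdd d j) =
      v.1 ^ (j : ℕ) * v.2 ^ (d - 1 - j) * hev d p v := by
    intro j
    rw [← shift_sum p v j j.2]
    simp only [Matrix.vecMul, dotProduct, hS, sylvester, Matrix.of_apply, Fin.addCases_right, m]
  have hkey : ∀ i, S.det * m i = ∑ j, (Matrix.vecMul m S) j * S.adjugate j i := by
    intro i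
    have h1 : Matrix.vecMul (Matrix.vecMul m S) S.adjugate = S.det • m := by
      rw [Matrix.vecMul_vecMul, Matrix.mul_adjugate, Matrix.vecMul_smul, Matrix.vecMul_one]
    have h2 := congrFun h1 i
    rw [Pi.smul_apply, smul_eq_mul] at h2
    rw [← h2]
    rfl
  have hv12 : ¬ (v.1 = 0 ∧ v.2 = 0) := by
    rintro ⟨h1, h2⟩
    have := hv.1
    rw [h1, h2] at this
    exact not_isCoprime_zero_zero this
  let i0 : Fin (d + d) := ⟨0, by omega⟩
  let i1 : Fin (d + d) := ⟨d + d - 1, by omega⟩
  have hm0 : m i0 = v.2 ^ (d + d - 1) := by simp [m, i0]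
  have hm1 : m i1 = v.1 ^ (d + d - 1) := by simp [m, i1]
  have hne : (hev d p v, hev d r v) ≠ 0 := by
    intro h0
    have hp0 : hev d p v = 0 := congrArg Prod.fst h0
    have hr0 : hev d r v = 0 := congrArg Prod.snd h0
    have hz : ∀ j, (Matrix.vecMul m S) j = 0 := by
      intro j
      refine Fin.addCases (fun j => ?_) (fun j => ?_) j
      · rw [hcast, hr0, mul_zero]
      · rw [hnat, hp0, mul_zero]
    have hmz : ∀ i, m i = 0 := by
      intro i
      have h1 := hkey i
      rw [Finset.sum_eq_zero (fun j _ => by rw [hz j, zero_mul])] at h1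
      exact (mul_eq_zero.mp h1).resolve_left hdet
    apply hv12
    refine ⟨?_, ?_⟩
    · have := hmz i1
      rw [hm1] at this
      exact pow_eq_zero_iff (by omega) |>.mp this
    · have := hmz i0
      rw [hm0] at this
      exact pow_eq_zero_iff (by omega) |>.mp this
  refine ⟨hne, ?_⟩
  intro Q c hQ
  have hpQ : hev d p v = c * Q.1 := congrArg Prod.fst hQ
  have hrQ : hev d r v = c * Q.2 := congrArg Prod.snd hQ
  have hdvd : ∀ i, c ∣ S.det * m i := by
    intro i
    rw [hkey]
    apply Finset.dvd_sum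
    intro j _
    apply Dvd.dvd.mul_right
    refine Fin.addCases (fun j => ?_) (fun j => ?_) j
    · rw [hcast, hrQ]
      exact Dvd.intro_left (v.1 ^ (j : ℕ) * v.2 ^ (d - 1 - j) * Q.2) (by ring)
    · rw [hnat, hpQ]
      exact Dvd.intro_left (v.1 ^ (j : ℕ) * v.2 ^ (d - 1 - j) * Q.1) (by ring)
  have hcdet : c ∣ S.det := by
    have h0 := hdvd i0
    have h1 := hdvd i1
    rw [hm0] at h0
    rw [hm1] at h1
    have hcop : IsCoprime (v.1 ^ (d + d - 1)) (v.2 ^ (d + d - 1)) := hv.1.pow
    obtain ⟨x, y, hxy⟩ := hcop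
    have : S.det = (S.det * v.1 ^ (d + d - 1)) * x + (S.det * v.2 ^ (d + d - 1)) * y := by
      linear_combination (-S.det) * hxy
    rw [this]
    exact dvd_add (Dvd.dvd.mul_right h1 _) (Dvd.dvd.mul_right h0 _)
  have hc : c.natDegree ≤ S.det.natDegree := natDegree_le_of_dvd hcdet hdet
  have hent : ∀ i j, (S i j).natDegree ≤ n := by
    have hU : ∀ g ∈ U F (d + 1) n, ∀ j, (g.coeff j).natDegree ≤ n := by
      intro g hg j
      exact natDegree_le_of_degree_le (hg.2 j).le
    intro i j
    refine Fin.addCases (fun j => ?_) (fun j => ?_) j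
    · simp only [hS, sylvester, Matrix.of_apply, Fin.addCases_left]
      split_ifs
      · exact hU r hr _
      · simp
    · simp only [hS, sylvester, Matrix.of_apply, Fin.addCases_right]
      split_ifs
      · exact hU p hp _
      · simp
  have hv1 : v.1.natDegree ≤ ht v := le_max_left _ _
  have hv2 : v.2.natDegree ≤ ht v := le_max_right _ _
  have hQ1 : Q.1.natDegree ≤ ht Q := le_max_left _ _
  have hQ2 : Q.2.natDegree ≤ ht Q := le_max_right _ _
  have hterm : ∀ (j : Fin d) (w : F[X]), w.natDegree ≤ ht Q →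
      (v.1 ^ (j : ℕ) * v.2 ^ (d - 1 - j) * (c * w)).natDegree ≤
        (d - 1) * ht v + c.natDegree + ht Q := by
    intro j w hw
    have e1 : (v.1 ^ (j : ℕ)).natDegree ≤ j * ht v :=
      natDegree_pow_le.trans (Nat.mul_le_mul_left _ hv1)
    have e2 : (v.2 ^ (d - 1 - j)).natDegree ≤ (d - 1 - j) * ht v :=
      natDegree_pow_le.trans (Nat.mul_le_mul_left _ hv2)
    have e3 : (j : ℕ) * ht v + (d - 1 - j) * ht v = (d - 1) * ht v := by
      rw [← Nat.add_mul]
      congr 1
      have := j.2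
      omega
    have e4 := (natDegree_mul_le (p := v.1 ^ (j : ℕ)) (q := v.2 ^ (d - 1 - j)))
    have e5 := (natDegree_mul_le (p := c) (q := w))
    have e6 := (natDegree_mul_le (p := v.1 ^ (j : ℕ) * v.2 ^ (d - 1 - j)) (q := c * w))
    omega
  have hB : ∀ i, (S.det * m i).natDegree ≤ (d - 1) * ht v + c.natDegree + ht Q + (d + d) * n := by
    intro i
    rw [hkey]
    refine natDegree_sum_le_of_forall_le _ _ (fun j _ => ?_)
    refine natDegree_mul_le.trans (add_le_add ?_ (natDegree_adjugate_le S n hent j i))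
    refine Fin.addCases (fun j => ?_) (fun j => ?_) j
    · rw [hcast, hrQ]
      exact hterm j _ hQ2
    · rw [hnat, hpQ]
      exact hterm j _ hQ1
  have hone : ∀ e : F[X], (∀ _ : e ≠ 0, (S.det * e ^ (d + d - 1)).natDegree ≤
      (d - 1) * ht v + c.natDegree + ht Q + (d + d) * n) → e ≠ 0 →
      S.det.natDegree + (d + d - 1) * e.natDegree ≤
      (d - 1) * ht v + c.natDegree + ht Q + (d + d) * n := by
    intro e h he
    have := h he
    rwa [natDegree_mul hdet (pow_ne_zero _ he), natDegree_pow] at this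
  have h1 : v.1 ≠ 0 → S.det.natDegree + (d + d - 1) * v.1.natDegree ≤
      (d - 1) * ht v + c.natDegree + ht Q + (d + d) * n :=
    hone v.1 (fun _ => by rw [← hm1]; exact hB i1)
  have h2 : v.2 ≠ 0 → S.det.natDegree + (d + d - 1) * v.2.natDegree ≤
      (d - 1) * ht v + c.natDegree + ht Q + (d + d) * n :=
    hone v.2 (fun _ => by rw [← hm0]; exact hB i0)
  have h3 : S.det.natDegree + (d + d - 1) * ht v ≤
      (d - 1) * ht v + c.natDegree + ht Q + (d + d) * n := by
    unfold ht at *
    rcases le_total v.1.natDegree v.2.natDegree with h | h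
    · rw [max_eq_right h] at *
      by_cases h0 : v.2 = 0
      · have h4 : v.1 ≠ 0 := fun h5 => hv12 ⟨h5, h0⟩
        have := h1 h4
        rw [h0] at h ⊢
        simp only [natDegree_zero, nonpos_iff_eq_zero] at h
        rw [h] at this
        simpa [h0] using this
      · exact h2 h0
    · rw [max_eq_left h] at *
      by_cases h0 : v.1 = 0
      · have h4 : v.2 ≠ 0 := fun h5 => hv12 ⟨h0, h5⟩
        have := h2 h4
        rw [h0] at h ⊢
        simp only [natDegree_zero, nonpos_iff_eq_zero] at h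
        rw [h] at this
        simpa [h0] using this
      · exact h1 h0
  obtain ⟨d, rfl⟩ : ∃ d', d = d' + 1 := ⟨d - 1, by omega⟩
  have e1 : d + 1 + (d + 1) - 1 = d + (d + 1) := by omega
  have e2 : d + 1 - 1 = d := by omega
  rw [e1, e2, Nat.add_mul] at h3
  nlinarith [h3, hc]

end Pool.Agent.R414.FG
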