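import Pool.Agent.R414.FG.B
import Pool.Agent.R414.FF.C

/-!
# Rational maps with many preperiodic points
-/

set_option autoImplicit false

open Polynomial Pool.Agent.R414.FF

namespace Pool.Agent.R414.FG

variable {F : Type*} [Field F]

/-- the map on coordinates given by the pair of forms `f` -/
noncomputable def ract (d : ℕ) (f : F[X][X] × F[X][X]) (v : F[X] × F[X]) : F[X] × F[X] :=
  (hev d f.1 v, hev d f.2 v)

/-- the preperiodic points in the projective line over `F(t)` -/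
def PreR (d : ℕ) (f : F[X][X] × F[X][X]) : Set (F[X] × F[X]) :=
  {v | v ∈ Pt F ∧ ∃ m n : ℕ, m < n ∧
    ((ract d f)^[m] v).1 * ((ract d f)^[n] v).2 = ((ract d f)^[m] v).2 * ((ract d f)^[n] v).1}

/-- the pairs of forms of degree `d` with coefficients of degree `< n` and nonzero resultant -/
def RatS (F : Type*) [Field F] (d n : ℕ) : Set (F[X][X] × F[X][X]) :=
  {f | f.1 ∈ U F (d + 1) n ∧ f.2 ∈ U F (d + 1) n ∧ resultant f.1 f.2 d d ≠ 0}

theorem hev_smul (d : ℕ) (p : F[X][X]) (c : F[X]) (w : F[X] × F[X]) :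
    hev d p (c * w.1, c * w.2) = c ^ d * hev d p w := by
  unfold hev
  rw [Finset.mul_sum]
  apply Finset.sum_congr rfl
  intro j hj
  rw [Finset.mem_range] at hj
  have e : c ^ d = c ^ j * c ^ (d - j) := by rw [← pow_add]; congr 1; omega
  simp only [e, mul_pow]
  ring

theorem exists_phi {d n : ℕ} (hd : 1 ≤ d) {f : F[X][X] × F[X][X]} (hf : f ∈ RatS F d n) :
    ∃ φ : F[X] × F[X] → F[X] × F[X], (∀ v ∈ Pt F, φ v ∈ Pt F ∧ ∃ c : F[X], c ≠ 0 ∧
      ract d f v = (c * (φ v).1, c * (φ v).2)) ∧ ∀ v ∈ PreR d f, ∃ m n : ℕ, m < n ∧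
      φ^[m] v = φ^[n] v := by
  classical
  have hex : ∀ v : F[X] × F[X], v ∈ Pt F → ∃ Q ∈ Pt F, ∃ c : F[X], c ≠ 0 ∧
      ract d f v = (c * Q.1, c * Q.2) := fun v hv =>
    canon (ract d f v) (ht_ineq hd hf.1 hf.2.1 hf.2.2 hv).1
  choose! φ hφ1 c hc hφ2 using hex
  refine ⟨φ, fun v hv => ⟨hφ1 v hv, c v, hc v hv, hφ2 v hv⟩, ?_⟩
  rintro v ⟨hv, m, m', hmm, h⟩
  have hpt : ∀ m, φ^[m] v ∈ Pt F := by
    intro m
    induction m with
    | zero => exact hv
    | succ m ih => rw [Function.iterate_succ_apply']; exact hφ1 _ ih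
  have hit : ∀ m, ∃ μ : F[X], μ ≠ 0 ∧ (ract d f)^[m] v = (μ * (φ^[m] v).1, μ * (φ^[m] v).2) := by
    intro m
    induction m with
    | zero => exact ⟨1, one_ne_zero, by simp⟩
    | succ m ih =>
      obtain ⟨μ, hμ, ih⟩ := ih
      refine ⟨μ ^ d * c (φ^[m] v), mul_ne_zero (pow_ne_zero _ hμ) (hc _ (hpt m)), ?_⟩
      rw [Function.iterate_succ_apply', Function.iterate_succ_apply', ih]
      have h1 := hφ2 (φ^[m] v) (hpt m)
      unfold ract at h1 ⊢
      rw [hev_smul, hev_smul]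
      have e1 : hev d f.1 (φ^[m] v) = c (φ^[m] v) * (φ (φ^[m] v)).1 := congrArg Prod.fst h1
      have e2 : hev d f.2 (φ^[m] v) = c (φ^[m] v) * (φ (φ^[m] v)).2 := congrArg Prod.snd h1
      rw [e1, e2, mul_assoc, mul_assoc]
  refine ⟨m, m', hmm, ?_⟩
  apply pt_ext (hpt m) (hpt m')
  obtain ⟨μ, hμ, h1⟩ := hit m
  obtain ⟨ν, hν, h2⟩ := hit m'
  rw [h1, h2] at h
  simp only at h
  apply mul_left_cancel₀ (mul_ne_zero hμ hν)
  linear_combination h

theorem pre_phi {d : ℕ} {f : F[X][X] × F[X][X]} {φ : F[X] × F[X] → F[X] × F[X]}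
    (hφ : ∀ v ∈ Pt F, φ v ∈ Pt F ∧ ∃ c : F[X], c ≠ 0 ∧ ract d f v = (c * (φ v).1, c * (φ v).2))
    {v : F[X] × F[X]} (hv : v ∈ PreR d f) : φ v ∈ PreR d f := by
  obtain ⟨hv, m, m', hmm, h⟩ := hv
  obtain ⟨h1, c, hc, h2⟩ := hφ v hv
  refine ⟨h1, m, m', hmm, ?_⟩
  have hs : ∀ (m : ℕ) (c : F[X]) (w : F[X] × F[X]), c ≠ 0 → ∃ μ : F[X], μ ≠ 0 ∧
      (ract d f)^[m] (c * w.1, c * w.2) =
        (μ * ((ract d f)^[m] w).1, μ * ((ract d f)^[m] w).2) := by
    intro m c w hc
    induction m with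
    | zero => exact ⟨c, hc, by simp⟩
    | succ m ih =>
      obtain ⟨μ, hμ, ih⟩ := ih
      refine ⟨μ ^ d, pow_ne_zero _ hμ, ?_⟩
      rw [Function.iterate_succ_apply', Function.iterate_succ_apply', ih]
      unfold ract
      rw [hev_smul, hev_smul]
  have hone : ∀ m, (ract d f)^[m] (ract d f v) = ract d f ((ract d f)^[m] v) := by
    intro m
    rw [← Function.iterate_succ_apply, Function.iterate_succ_apply']
  obtain ⟨μ, hμ, e1⟩ := hs m c (φ v) hc
  obtain ⟨ν, hν, e2⟩ := hs m' c (φ v) hc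
  rw [← h2, hone] at e1 e2
  -- proportional vectors have proportional images
  set a := (ract d f)^[m] v with ha
  set b := (ract d f)^[m'] v with hb
  have hprop : (ract d f a).1 * (ract d f b).2 = (ract d f a).2 * (ract d f b).1 := by
    have key : ∀ (p r : F[X][X]), hev d p a * hev d r b = hev d r a * hev d p b ∨ True := by
      intro p r; exact Or.inr trivial
    by_cases hb0 : b = 0
    · have : ∀ p : F[X][X], d ≠ 0 → hev d p b = 0 := by
        intro p hd0
        unfold hev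
        apply Finset.sum_eq_zero
        intro j hj
        rw [Finset.mem_range] at hj
        rw [hb0]
        by_cases hj0 : j = 0
        · subst hj0
          simp [hd0]
        · simp [hj0]
      by_cases hd0 : d = 0
      · unfold ract hev
        subst hd0
        simp
        ring
      · unfold ract
        simp only
        rw [this _ hd0, this _ hd0, mul_zero, mul_zero]
    · obtain ⟨Q, -, c', hc', hQ⟩ := canon b hb0
      by_cases ha0 : a = 0
      · have : ∀ p : F[X][X], d ≠ 0 → hev d p a = 0 := by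
          intro p hd0
          unfold hev
          apply Finset.sum_eq_zero
          intro j hj
          rw [Finset.mem_range] at hj
          rw [ha0]
          by_cases hj0 : j = 0
          · subst hj0
            simp [hd0]
          · simp [hj0]
        by_cases hd0 : d = 0
        · unfold ract hev
          subst hd0
          simp
          ring
        · unfold ract
          simp only
          rw [this _ hd0, this _ hd0, zero_mul, zero_mul]
      · obtain ⟨R, hR, c'', hc'', hR'⟩ := canon a ha0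
        obtain ⟨Q, hQp, c', hc', hQ⟩ := canon b hb0
        have hRQ : R = Q := by
          apply pt_ext hR hQp
          rw [hR', hQ] at h
          simp only at h
          apply mul_left_cancel₀ (mul_ne_zero hc'' hc')
          linear_combination h
        unfold ract
        simp only
        rw [hR', hQ, hev_smul, hev_smul, hev_smul, hev_smul, hRQ]
        ring
  rw [e1, e2] at hprop
  simp only at hprop
  apply mul_left_cancel₀ (mul_ne_zero hμ hν)
  linear_combination hprop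

theorem pre_ht {d n : ℕ} (hd : 2 ≤ d) {f : F[X][X] × F[X][X]} (hf : f ∈ RatS F d n)
    {v : F[X] × F[X]} (hv : v ∈ PreR d f) : ht v ≤ n * 4 := by
  classical
  obtain ⟨φ, hφ, hφ'⟩ := exists_phi (by omega) hf
  obtain ⟨m, m', hmm, h⟩ := hφ' v hv
  have hpt : ∀ m, φ^[m] v ∈ Pt F := by
    intro m
    induction m with
    | zero => exact hv.1
    | succ m ih => rw [Function.iterate_succ_apply']; exact (hφ _ ih).1
  have hn : (Finset.range m').Nonempty := ⟨0, Finset.mem_range.mpr (by omega)⟩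
  obtain ⟨i, hi, hmax⟩ := Finset.exists_max_image (Finset.range m') (fun i => ht (φ^[i] v)) hn
  rw [Finset.mem_range] at hi
  have h1 : ht (φ (φ^[i] v)) ≤ ht (φ^[i] v) := by
    have e1 : φ (φ^[i] v) = φ^[i + 1] v := by rw [Function.iterate_succ_apply']
    rw [e1]
    by_cases h1 : i + 1 < m'
    · exact hmax _ (Finset.mem_range.mpr h1)
    · have h2 : i + 1 = m' := by omega
      rw [h2, ← h]
      exact hmax _ (Finset.mem_range.mpr hmm)
  have h2 : ht v ≤ ht (φ^[i] v) := hmax 0 (Finset.mem_range.mpr (by omega))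
  obtain ⟨-, c, -, h3⟩ := hφ _ (hpt i)
  have h4 := (ht_ineq (by omega) hf.1 hf.2.1 hf.2.2 (hpt i)).2 _ c h3
  obtain ⟨e, rfl⟩ := Nat.exists_eq_add_of_le hd
  nlinarith

/-- the points of height at most `h` -/
def PtH (F : Type*) [Field F] (h : ℕ) : Set (F[X] × F[X]) := {v | v ∈ Pt F ∧ ht v ≤ h}

theorem PtH_card [Fintype F] (h : ℕ) : (PtH F h).Finite ∧
    (PtH F h).ncard ≤ Fintype.card F ^ (2 * (h + 1)) := by
  classical
  obtain ⟨h1, h2⟩ := U_card (F := F) 2 (h + 1)
  have hc0 : ∀ v : F[X] × F[X], (C v.1 + C v.2 * X : F[X][X]).coeff 0 = v.1 := by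
    intro v; simp
  have hc1 : ∀ v : F[X] × F[X], (C v.1 + C v.2 * X : F[X][X]).coeff 1 = v.2 := by
    intro v; simp
  have hmaps : Set.MapsTo (fun v : F[X] × F[X] => (C v.1 + C v.2 * X : F[X][X])) (PtH F h)
      (U F 2 (h + 1)) := by
    rintro v ⟨-, hv⟩
    refine ⟨?_, ?_⟩
    · rw [degree_lt_iff_coeff_zero]
      intro j hj
      have : j ≠ 0 ∧ j ≠ 1 := by
        have : 2 ≤ j := by exact_mod_cast hj
        omega
      obtain ⟨j, rfl⟩ : ∃ i, j = i + 2 := ⟨j - 2, by have : 2 ≤ j := by exact_mod_cast hj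
                                                     omega⟩
      simp [coeff_C, coeff_X]
    · intro j
      refine lt_of_le_of_lt degree_le_natDegree ?_
      have h3 : ((C v.1 + C v.2 * X : F[X][X]).coeff j).natDegree < h + 1 := by
        rcases j with _ | _ | j
        · rw [hc0]
          exact Nat.lt_succ_of_le ((le_max_left _ _).trans hv)
        · rw [hc1]
          exact Nat.lt_succ_of_le ((le_max_right _ _).trans hv)
        · simp [coeff_C, coeff_X]
      exact_mod_cast h3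
  have hinj : Set.InjOn (fun v : F[X] × F[X] => (C v.1 + C v.2 * X : F[X][X])) (PtH F h) := by
    intro v _ w _ hvw
    simp only at hvw
    apply Prod.ext
    · rw [← hc0 v, ← hc0 w, hvw]
    · rw [← hc1 v, ← hc1 w, hvw]
  refine ⟨Set.Finite.of_injOn hmaps hinj h1, ?_⟩
  rw [← h2]
  exact Set.ncard_le_ncard_of_injOn _ hmaps hinj h1

theorem U_sub {a b : ℕ} {u v : F[X][X]} (hu : u ∈ U F a b) (hv : v ∈ U F a b) : u - v ∈ U F a b := by
  refine ⟨lt_of_le_of_lt (degree_sub_le _ _) (max_lt hu.1 hv.1), fun j => ?_⟩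
  rw [coeff_sub]
  exact lt_of_le_of_lt (degree_sub_le _ _) (max_lt (hu.2 j) (hv.2 j))

/-- pairs of forms with given images at given points -/
theorem cell_card [Fintype F] {k d n : ℕ} (hkd : k ≤ d) (x y : Fin k → F[X] × F[X])
    (hxi : Function.Injective x) (hx : ∀ i, x i ∈ Pt F) (hy : ∀ i, y i ∈ Pt F) (i₀ : Fin k)
    (hd : (4 * k + 1) * 5 ≤ d + 1 - k) (hh : ht (x i₀) ≤ n * 4) :
    {f : F[X][X] × F[X][X] | f.1 ∈ U F (d + 1) n ∧ f.2 ∈ U F (d + 1) n ∧
      ∀ i, hev d f.1 (x i) * (y i).2 = hev d f.2 (x i) * (y i).1}.Finite ∧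
    {f : F[X][X] × F[X][X] | f.1 ∈ U F (d + 1) n ∧ f.2 ∈ U F (d + 1) n ∧
      ∀ i, hev d f.1 (x i) * (y i).2 = hev d f.2 (x i) * (y i).1}.ncard *
      Fintype.card F ^ ((4 * k + 1) * ht (x i₀)) ≤ Fintype.card F ^ ((2 * d + 2 - k) * n) := by
  classical
  set q := Fintype.card F with hq
  have hq2 : 2 ≤ q := Fintype.one_lt_card
  set T₁ := (Finset.univ.filter fun i => (y i).2 = 0).image x with hT₁
  set T₂ := (Finset.univ.filter fun i => (y i).2 ≠ 0).image x with hT₂
  have hc₁ : T₁.card = (Finset.univ.filter fun i => (y i).2 = 0).card :=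
    Finset.card_image_of_injective _ hxi
  have hc₂ : T₂.card = (Finset.univ.filter fun i => (y i).2 ≠ 0).card :=
    Finset.card_image_of_injective _ hxi
  have hcc : T₁.card + T₂.card = k := by
    rw [hc₁, hc₂, Finset.card_filter_add_card_filter_not, Finset.card_univ, Fintype.card_fin]
  obtain ⟨hf₁, hn₁⟩ := ker_card T₁ (by
    intro v hv
    obtain ⟨i, -, rfl⟩ := Finset.mem_image.mp hv
    exact hx i) d n (by omega)
  obtain ⟨hf₂, hn₂⟩ := ker_card T₂ (by
    intro v hv
    obtain ⟨i, -, rfl⟩ := Finset.mem_image.mp hv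
    exact hx i) d n (by omega)
  rw [← hq] at hn₁ hn₂
  set W := {f : F[X][X] × F[X][X] | f.1 ∈ U F (d + 1) n ∧ f.2 ∈ U F (d + 1) n ∧
      ∀ i, hev d f.1 (x i) * (y i).2 = hev d f.2 (x i) * (y i).1} with hW
  let R : Finset F[X][X] := hf₁.toFinset
  let B : F[X][X] → Set (F[X][X] × F[X][X]) := fun r => {f | f ∈ W ∧ f.2 = r}
  have hB : ∀ r, (B r).Finite ∧ (B r).ncard ≤ q ^ ((d + 1 - T₂.card) * (n - ∑ v ∈ T₂, ht v)) := by
    intro r
    rcases (B r).eq_empty_or_nonempty with h0 | ⟨f₀, hf₀⟩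
    · rw [h0]; simp
    · have hmaps : Set.MapsTo (fun f : F[X][X] × F[X][X] => f.1 - f₀.1) (B r)
          {p | p ∈ U F (d + 1) n ∧ ∀ v ∈ T₂, hev d p v = 0} := by
        rintro f ⟨hf, hfr⟩
        refine ⟨U_sub hf.1 hf₀.1.1, ?_⟩
        intro v hv
        obtain ⟨i, hi, rfl⟩ := Finset.mem_image.mp hv
        rw [Finset.mem_filter] at hi
        have e1 := hf.2.2 i
        have e2 := hf₀.1.2.2 i
        rw [hfr] at e1
        rw [hf₀.2] at e2
        rw [hev_sub]
        apply mul_right_cancel₀ hi.2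
        rw [zero_mul]
        linear_combination e1 - e2
      have hinj : Set.InjOn (fun f : F[X][X] × F[X][X] => f.1 - f₀.1) (B r) := by
        rintro f ⟨-, hfr⟩ g ⟨-, hgr⟩ hfg
        exact Prod.ext (sub_left_inj.mp hfg) (hfr.trans hgr.symm)
      exact ⟨Set.Finite.of_injOn hmaps hinj hf₂,
        (Set.ncard_le_ncard_of_injOn _ hmaps hinj hf₂).trans hn₂⟩
  have hcov : W ⊆ ⋃ r ∈ R, B r := by
    intro f hf
    simp only [Set.mem_iUnion]
    refine ⟨f.2, ?_, hf, rfl⟩
    simp only [R, Set.Finite.mem_toFinset]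
    refine ⟨hf.2.1, ?_⟩
    intro v hv
    obtain ⟨i, hi, rfl⟩ := Finset.mem_image.mp hv
    rw [Finset.mem_filter] at hi
    have e1 := hf.2.2 i
    rcases (hy i).2 with h1 | h1
    · exact absurd hi.2 h1.ne_zero
    · rw [h1] at e1
      simp only [mul_zero, mul_one] at e1
      exact e1.symm
  have hfin : (⋃ r ∈ R, B r).Finite := by
    apply Set.Finite.biUnion (Finset.finite_toSet _)
    intro r _
    exact (hB r).1
  refine ⟨hfin.subset hcov, ?_⟩
  have hR : R.card ≤ q ^ ((d + 1 - T₁.card) * (n - ∑ v ∈ T₁, ht v)) := by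
    rw [← Set.ncard_eq_toFinset_card _ hf₁]
    exact hn₁
  have h1 : W.ncard ≤ q ^ ((d + 1 - T₁.card) * (n - ∑ v ∈ T₁, ht v)) *
      q ^ ((d + 1 - T₂.card) * (n - ∑ v ∈ T₂, ht v)) := by
    refine (Set.ncard_le_ncard hcov hfin).trans ((Finset.set_ncard_biUnion_le _ _).trans ?_)
    refine (Finset.sum_le_card_nsmul _ _ _ fun r _ => (hB r).2).trans ?_
    rw [smul_eq_mul]
    exact Nat.mul_le_mul_right _ hR
  have h2 : (d + 1 - T₁.card) * (n - ∑ v ∈ T₁, ht v) + (d + 1 - T₂.card) * (n - ∑ v ∈ T₂, ht v) +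
      (4 * k + 1) * ht (x i₀) ≤ (2 * d + 2 - k) * n := by
    have e0 : (2 * d + 2 - k) * n = (d + 1 - T₁.card) * n + (d + 1 - T₂.card) * n := by
      rw [← Nat.add_mul]
      congr 1
      omega
    rw [e0]
    by_cases h0 : (y i₀).2 = 0
    · have hm : x i₀ ∈ T₁ := Finset.mem_image_of_mem _ (Finset.mem_filter.mpr ⟨Finset.mem_univ _, h0⟩)
      have h3 : ht (x i₀) ≤ ∑ v ∈ T₁, ht v :=
        Finset.single_le_sum (f := ht) (fun _ _ => Nat.zero_le _) hm
      have h4 := arith (κ := 4 * k) (a := d + 1 - T₁.card) (n := n) (h := ht (x i₀)) (D := 4)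
        (by omega) hh
      have h5 : (d + 1 - T₁.card) * (n - ∑ v ∈ T₁, ht v) ≤
          (d + 1 - T₁.card) * (n - ht (x i₀)) := Nat.mul_le_mul_left _ (by omega)
      have h6 : (d + 1 - T₂.card) * (n - ∑ v ∈ T₂, ht v) ≤ (d + 1 - T₂.card) * n :=
        Nat.mul_le_mul_left _ (by omega)
      have h7 : (4 * k + 1) * ht (x i₀) = 4 * k * ht (x i₀) + ht (x i₀) := by ring
      omega
    · have hm : x i₀ ∈ T₂ := Finset.mem_image_of_mem _ (Finset.mem_filter.mpr ⟨Finset.mem_univ _, h0⟩)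
      have h3 : ht (x i₀) ≤ ∑ v ∈ T₂, ht v :=
        Finset.single_le_sum (f := ht) (fun _ _ => Nat.zero_le _) hm
      have h4 := arith (κ := 4 * k) (a := d + 1 - T₂.card) (n := n) (h := ht (x i₀)) (D := 4)
        (by omega) hh
      have h5 : (d + 1 - T₂.card) * (n - ∑ v ∈ T₂, ht v) ≤
          (d + 1 - T₂.card) * (n - ht (x i₀)) := Nat.mul_le_mul_left _ (by omega)
      have h6 : (d + 1 - T₁.card) * (n - ∑ v ∈ T₁, ht v) ≤ (d + 1 - T₁.card) * n :=
        Nat.mul_le_mul_left _ (by omega)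
      have h7 : (4 * k + 1) * ht (x i₀) = 4 * k * ht (x i₀) + ht (x i₀) := by ring
      omega
  calc W.ncard * q ^ ((4 * k + 1) * ht (x i₀))
      ≤ (q ^ ((d + 1 - T₁.card) * (n - ∑ v ∈ T₁, ht v)) *
      q ^ ((d + 1 - T₂.card) * (n - ∑ v ∈ T₂, ht v))) * q ^ ((4 * k + 1) * ht (x i₀)) :=
        Nat.mul_le_mul_right _ h1
    _ = q ^ ((d + 1 - T₁.card) * (n - ∑ v ∈ T₁, ht v) +
        (d + 1 - T₂.card) * (n - ∑ v ∈ T₂, ht v) + (4 * k + 1) * ht (x i₀)) := by
        rw [pow_add, pow_add]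
    _ ≤ q ^ ((2 * d + 2 - k) * n) := Nat.pow_le_pow_right (by omega) h2

end Pool.Agent.R414.FG
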