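import Pool.Agent.R414.FG.C

/-!
# Upper bound for the number of rational maps with many preperiodic points
-/

set_option autoImplicit false

open Polynomial Pool.Agent.R414.FF

namespace Pool.Agent.R414.FG

variable {F : Type*} [Field F]

theorem preR_finite [Fintype F] {d n : ℕ} (hd : 2 ≤ d) {f : F[X][X] × F[X][X]}
    (hf : f ∈ RatS F d n) : (PreR d f).Finite :=
  (PtH_card (F := F) (n * 4)).1.subset fun _ hv => ⟨hv.1, pre_ht hd hf hv⟩

theorem cover [Fintype F] {k d n : ℕ} (hd : 2 ≤ d) {f : F[X][X] × F[X][X]} (hf : f ∈ RatS F d n)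
    (hk : k + 1 ≤ (PreR d f).ncard) : ∃ h ≤ n * 4, ∃ x y : Fin (k + 1) → F[X] × F[X],
      (∀ i, x i ∈ PtH F h) ∧ (∀ i, y i ∈ PtH F h) ∧ Function.Injective x ∧ ht (x 0) = h ∧
      ∀ i, hev d f.1 (x i) * (y i).2 = hev d f.2 (x i) * (y i).1 := by
  classical
  obtain ⟨φ, hφ, -⟩ := exists_phi (by omega) hf
  have hfin := preR_finite hd hf
  have hne : hfin.toFinset.Nonempty := by
    rw [← Finset.card_pos, ← Set.ncard_eq_toFinset_card _ hfin]
    omega
  obtain ⟨z, hz, hmax⟩ := Finset.exists_max_image hfin.toFinset ht hne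
  have hmax' : ∀ w ∈ PreR d f, ht w ≤ ht z := fun w hw => hmax w (hfin.mem_toFinset.mpr hw)
  obtain ⟨T, hT1, hT2, hT3⟩ := Finset.exists_subsuperset_card_eq (s := {z}) (t := hfin.toFinset)
    (n := k + 1) (by simpa using hz) (by simp)
    (by rw [← Set.ncard_eq_toFinset_card _ hfin]; exact hk)
  have hzT : z ∈ T := hT1 (Finset.mem_singleton_self z)
  rw [Set.Finite.mem_toFinset] at hz
  let g := T.equivFinOfCardEq hT3
  let j := g ⟨z, hzT⟩
  let x : Fin (k + 1) → F[X] × F[X] := fun i => (g.symm (Equiv.swap 0 j i) : F[X] × F[X])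
  have hx : ∀ i, x i ∈ PreR d f := fun i =>
    hfin.mem_toFinset.mp (hT2 (g.symm (Equiv.swap 0 j i)).2)
  have hx0 : x 0 = z := by
    simp only [x, Equiv.swap_apply_left, j, Equiv.symm_apply_apply]
  refine ⟨ht z, pre_ht hd hf hz, x, fun i => φ (x i), fun i => ⟨(hx i).1, hmax' _ (hx i)⟩,
    fun i => ?_, ?_, by rw [hx0], ?_⟩
  · have := pre_phi hφ (hx i)
    exact ⟨this.1, hmax' _ this⟩
  · intro a b hab
    have h1 := g.symm.injective (Subtype.ext hab)
    exact (Equiv.swap 0 j).injective h1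
  · intro i
    obtain ⟨-, c, hc, h1⟩ := hφ (x i) (hx i).1
    have e1 : hev d f.1 (x i) = c * (φ (x i)).1 := congrArg Prod.fst h1
    have e2 : hev d f.2 (x i) = c * (φ (x i)).2 := congrArg Prod.snd h1
    rw [e1, e2]
    ring

theorem upper [Fintype F] (k : ℕ) {d : ℕ} (hd : k + 1 + (4 * (k + 1) + 1) * 5 ≤ d) (n : ℕ) :
    {f | f ∈ RatS F d n ∧ k + 1 ≤ (PreR d f).ncard}.Finite ∧
    ({f | f ∈ RatS F d n ∧ k + 1 ≤ (PreR d f).ncard}.ncard : ℝ) ≤
      2 * (Fintype.card F : ℝ) ^ (4 * (k + 1)) *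
        (Fintype.card F : ℝ) ^ ((2 * d + 2 - (k + 1)) * n) := by
  classical
  set q := Fintype.card F with hq
  have hq2 : 2 ≤ q := Fintype.one_lt_card
  have hq0 : (0 : ℝ) < q := by exact_mod_cast (by omega : 0 < q)
  have hq2' : (2 : ℝ) ≤ q := by exact_mod_cast hq2
  have hd2 : 2 ≤ d := by omega
  set S := {f | f ∈ RatS F d n ∧ k + 1 ≤ (PreR d f).ncard} with hS
  set N := (2 * d + 2 - (k + 1)) * n with hN
  let P : ℕ → Finset (F[X] × F[X]) := fun h => (PtH_card (F := F) h).1.toFinset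
  have hPc : ∀ h, (P h).card ≤ q ^ (2 * (h + 1)) := by
    intro h
    have := (PtH_card (F := F) h).2
    rwa [Set.ncard_eq_toFinset_card _ (PtH_card (F := F) h).1] at this
  have hPm : ∀ h v, v ∈ P h ↔ v ∈ PtH F h := fun h v => (PtH_card (F := F) h).1.mem_toFinset
  let I : ℕ → Finset ((Fin (k + 1) → F[X] × F[X]) × (Fin (k + 1) → F[X] × F[X])) := fun h =>
    (Fintype.piFinset fun _ => P h) ×ˢ (Fintype.piFinset fun _ => P h)
  have hI : ∀ h, (I h).card ≤ q ^ (4 * (k + 1)) * q ^ (4 * (k + 1) * h) := by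
    intro h
    simp only [I]
    rw [Finset.card_product, Fintype.card_piFinset, Finset.prod_const, Finset.card_univ,
      Fintype.card_fin, ← pow_add]
    refine (Nat.pow_le_pow_left (hPc h) _).trans (le_of_eq ?_)
    rw [← pow_mul, ← pow_add]
    congr 1
    ring
  let cell : ℕ → ((Fin (k + 1) → F[X] × F[X]) × (Fin (k + 1) → F[X] × F[X])) →
      Set (F[X][X] × F[X][X]) := fun h p =>
    {f | (f.1 ∈ U F (d + 1) n ∧ f.2 ∈ U F (d + 1) n ∧
      ∀ i, hev d f.1 (p.1 i) * (p.2 i).2 = hev d f.2 (p.1 i) * (p.2 i).1) ∧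
      Function.Injective p.1 ∧ ht (p.1 0) = h}
  have hcell : ∀ h ≤ n * 4, ∀ p ∈ I h, (cell h p).Finite ∧
      (cell h p).ncard * q ^ ((4 * (k + 1) + 1) * h) ≤ q ^ N := by
    intro h hh p hp
    simp only [I, Finset.mem_product, Fintype.mem_piFinset, hPm] at hp
    by_cases hc : Function.Injective p.1 ∧ ht (p.1 0) = h
    · obtain ⟨h1, h2⟩ := cell_card (F := F) (k := k + 1) (d := d) (n := n) (by omega) p.1 p.2 hc.1
        (fun i => (hp.1 i).1) (fun i => (hp.2 i).1) 0 (by omega) (by rw [hc.2]; exact hh)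
      have hsub : cell h p ⊆ {f : F[X][X] × F[X][X] | f.1 ∈ U F (d + 1) n ∧ f.2 ∈ U F (d + 1) n ∧
          ∀ i, hev d f.1 (p.1 i) * (p.2 i).2 = hev d f.2 (p.1 i) * (p.2 i).1} := fun f hf => hf.1
      refine ⟨h1.subset hsub, ?_⟩
      rw [hc.2] at h2
      exact (Nat.mul_le_mul_right _ (Set.ncard_le_ncard hsub h1)).trans h2
    · have h0 : cell h p = ∅ := by
        rw [Set.eq_empty_iff_forall_notMem]
        intro f hf
        exact hc hf.2
      rw [h0]
      simp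
  have hcov : S ⊆ ⋃ h ∈ Finset.range (n * 4 + 1), ⋃ p ∈ I h, cell h p := by
    intro f hf
    obtain ⟨h, hh, x, y, h1, h2, h3, h4, h5⟩ := cover hd2 hf.1 hf.2
    simp only [Set.mem_iUnion]
    refine ⟨h, Finset.mem_range.mpr (by omega), (x, y), ?_, ⟨hf.1.1, hf.1.2.1, h5⟩, h3, h4⟩
    simp only [I, Finset.mem_product, Fintype.mem_piFinset, hPm]
    exact ⟨h1, h2⟩
  have hfin : (⋃ h ∈ Finset.range (n * 4 + 1), ⋃ p ∈ I h, cell h p).Finite := by
    apply Set.Finite.biUnion (Finset.finite_toSet _)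
    intro h hh
    apply Set.Finite.biUnion (Finset.finite_toSet _)
    intro p hp
    have : h < n * 4 + 1 := Finset.mem_range.mp hh
    exact (hcell h (by omega) p hp).1
  refine ⟨hfin.subset hcov, ?_⟩
  have h1 : S.ncard ≤ ∑ h ∈ Finset.range (n * 4 + 1), ∑ p ∈ I h, (cell h p).ncard := by
    refine (Set.ncard_le_ncard hcov hfin).trans ?_
    refine (Finset.set_ncard_biUnion_le _ _).trans (Finset.sum_le_sum fun h _ => ?_)
    exact Finset.set_ncard_biUnion_le _ _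
  have h2 : (S.ncard : ℝ) ≤ ∑ h ∈ Finset.range (n * 4 + 1), ∑ p ∈ I h, ((cell h p).ncard : ℝ) := by
    exact_mod_cast h1
  refine h2.trans ?_
  have h3 : ∀ h ∈ Finset.range (n * 4 + 1), ∑ p ∈ I h, ((cell h p).ncard : ℝ) ≤
      (q : ℝ) ^ (4 * (k + 1)) * (q : ℝ) ^ N * (1 / 2) ^ h := by
    intro h hh
    have hh' : h ≤ n * 4 := by
      have : h < n * 4 + 1 := Finset.mem_range.mp hh
      omega
    have h4 : ∀ p ∈ I h, ((cell h p).ncard : ℝ) ≤
        (q : ℝ) ^ N / (q : ℝ) ^ ((4 * (k + 1) + 1) * h) := by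
      intro p hp
      rw [le_div_iff₀ (by positivity)]
      exact_mod_cast (hcell h hh' p hp).2
    refine (Finset.sum_le_sum h4).trans ?_
    rw [Finset.sum_const, nsmul_eq_mul]
    have h5 : ((I h).card : ℝ) ≤ (q : ℝ) ^ (4 * (k + 1)) * (q : ℝ) ^ (4 * (k + 1) * h) := by
      exact_mod_cast hI h
    calc ((I h).card : ℝ) * ((q : ℝ) ^ N / (q : ℝ) ^ ((4 * (k + 1) + 1) * h))
        ≤ ((q : ℝ) ^ (4 * (k + 1)) * (q : ℝ) ^ (4 * (k + 1) * h)) *
          ((q : ℝ) ^ N / (q : ℝ) ^ ((4 * (k + 1) + 1) * h)) := by gcongr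
      _ = (q : ℝ) ^ (4 * (k + 1)) * (q : ℝ) ^ N * ((q : ℝ) ^ h)⁻¹ := by
        have e : (q : ℝ) ^ ((4 * (k + 1) + 1) * h) = (q : ℝ) ^ (4 * (k + 1) * h) * (q : ℝ) ^ h := by
          rw [← pow_add]
          congr 1
          ring
        rw [e]
        field_simp
      _ ≤ (q : ℝ) ^ (4 * (k + 1)) * (q : ℝ) ^ N * (1 / 2) ^ h := by
        rw [one_div, inv_pow]
        gcongr
  refine (Finset.sum_le_sum h3).trans ?_
  rw [← Finset.mul_sum]
  have h9 := sum_geometric_two_le (n * 4 + 1)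
  calc _ ≤ (q : ℝ) ^ (4 * (k + 1)) * (q : ℝ) ^ N * 2 := by gcongr
    _ = _ := by ring

end Pool.Agent.R414.FG
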