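import Pool.Agent.R414.FG.D

/-!
# Lower bound for the number of rational maps with many preperiodic points
-/

set_option autoImplicit false

open Polynomial Pool.Agent.R414.FF

namespace Pool.Agent.R414.FG

variable {F : Type*} [Field F]

/-- the monic polynomial with the roots `t, t², …, tᵏ` -/
noncomputable def Mk (F : Type*) [Field F] (k : ℕ) : F[X][X] :=
  ∏ i ∈ Finset.range k, (X - C (X ^ (i + 1) : F[X]))

theorem Mk_monic (k : ℕ) : (Mk F k).Monic := monic_prod_of_monic _ _ fun _ _ => monic_X_sub_C _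

theorem Mk_natDegree (k : ℕ) : (Mk F k).natDegree = k := by
  unfold Mk
  rw [natDegree_prod_of_monic _ _ fun _ _ => monic_X_sub_C _,
    Finset.sum_congr rfl (g := fun _ => 1) fun _ _ => natDegree_X_sub_C _]
  simp

theorem Mk_eval {k i : ℕ} (hi : i < k) : (Mk F k).eval (X ^ (i + 1) : F[X]) = 0 := by
  unfold Mk
  rw [eval_prod]
  apply Finset.prod_eq_zero (Finset.mem_range.mpr hi)
  simp

theorem Mk_map (k : ℕ) : (Mk F k).map (evalRingHom (0 : F)) = X ^ k := by
  unfold Mk
  rw [Polynomial.map_prod]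
  rw [Finset.prod_congr rfl (g := fun _ => (X : F[X]))]
  · simp
  · intro i _
    simp

theorem tdeg_add_le (u v : F[X][X]) : tdeg (u + v) ≤ max (tdeg u) (tdeg v) := by
  rw [tdeg_eq, tdeg_eq, tdeg_eq, map_add]
  exact natDegree_add_le _ _

theorem tdeg_mul_le (u v : F[X][X]) : tdeg (u * v) ≤ tdeg u + tdeg v := by
  rw [tdeg_eq, tdeg_eq, tdeg_eq, map_mul]
  exact natDegree_mul_le

theorem tdeg_one : tdeg (1 : F[X][X]) = 0 := by
  rw [tdeg_eq]; simp

theorem tdeg_X_pow (j : ℕ) : tdeg (X ^ j : F[X][X]) = 0 := by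
  apply Nat.le_zero.mp
  rw [tdeg_le_iff]
  intro i
  rw [coeff_X_pow]
  split_ifs <;> simp

theorem tdeg_X : tdeg (X : F[X][X]) = 0 := by
  have := tdeg_X_pow (F := F) 1
  rwa [pow_one] at this

theorem tdeg_CX : tdeg (C X : F[X][X]) ≤ 1 := by
  rw [tdeg_le_iff]
  intro i
  rw [coeff_C]
  split_ifs
  · exact natDegree_X_le
  · simp

theorem tdeg_pred {a m : ℕ} {u : F[X][X]} (hu : u ∈ U F a m) (hm : 1 ≤ m) : 1 + tdeg u ≤ m := by
  by_cases h0 : u = 0
  · have : tdeg u = 0 := by
      subst h0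
      apply Nat.le_zero.mp
      rw [tdeg_le_iff]
      intro i
      simp
    omega
  · have := tdeg_lt_of_mem hu h0
    omega

theorem mem_U {u : F[X][X]} {d n : ℕ} (h1 : u.natDegree ≤ d) (h2 : tdeg u < n) :
    u ∈ U F (d + 1) n := by
  refine ⟨?_, fun j => ?_⟩
  · refine lt_of_le_of_lt degree_le_natDegree ?_
    exact_mod_cast Nat.lt_succ_of_le h1
  · refine lt_of_le_of_lt degree_le_natDegree ?_
    have h3 := tdeg_le_iff.mp (le_refl (tdeg u)) j
    have : (u.coeff j).natDegree < n := by omega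
    exact_mod_cast this

theorem natDegree_le_of_U {u : F[X][X]} {s m : ℕ} (hu : u ∈ U F (s + 1) m) : u.natDegree ≤ s := by
  by_cases h0 : u = 0
  · subst h0; simp
  · have := (natDegree_lt_iff_degree_lt h0).mpr hu.1
    omega

theorem natDegree_le_of_U' {u : F[X][X]} {s m : ℕ} (hu : u ∈ U F s m) : u.natDegree ≤ s := by
  by_cases h0 : u = 0
  · subst h0; simp
  · have := (natDegree_lt_iff_degree_lt h0).mpr hu.1
    omega

theorem hev_one {d : ℕ} {p : F[X][X]} (hp : p.natDegree ≤ d) (a : F[X]) :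
    hev d p (a, 1) = p.eval a := by
  unfold hev
  rw [eval_eq_sum_range' (Nat.lt_succ_of_le hp)]
  apply Finset.sum_congr rfl
  intro j _
  simp

/-- the pair of forms attached to three parameters -/
noncomputable def par (d k : ℕ) (w : F[X][X] × F[X][X] × F[X][X]) : F[X][X] × F[X][X] :=
  (X * (1 + C X * w.1) + Mk F k * (X ^ (d - k) + C X * w.2.1),
    (1 + C X * w.1) + Mk F k * (C X * w.2.2))

theorem par_mem {d k m : ℕ} (hd : k + 2 ≤ d) (hm : 1 ≤ m) {w : F[X][X] × F[X][X] × F[X][X]}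
    (h1 : w.1 ∈ U F k m) (h2 : w.2.1 ∈ U F (d - k + 1) m) (h3 : w.2.2 ∈ U F (d - k + 1) m) :
    (par d k w).1.natDegree ≤ d ∧ (par d k w).2.natDegree ≤ d ∧
      par d k w ∈ RatS F d (m + (tdeg (Mk F k) + 1)) := by
  have a1 := tdeg_pred h1 hm
  have a2 := tdeg_pred h2 hm
  have a3 := tdeg_pred h3 hm
  have b1 := natDegree_le_of_U' h1
  have b2 := natDegree_le_of_U h2
  have b3 := natDegree_le_of_U h3
  have c0 : ∀ u : F[X][X], (C X * u).natDegree ≤ u.natDegree := fun u => natDegree_C_mul_le _ _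
  have t0 : ∀ u : F[X][X], tdeg (C X * u) ≤ 1 + tdeg u := fun u =>
    (tdeg_mul_le _ _).trans (Nat.add_le_add_right tdeg_CX _)
  have d1 : (1 + C X * w.1).natDegree ≤ k := by
    refine (natDegree_add_le _ _).trans (max_le ?_ ((c0 _).trans b1))
    simp
  have s1 : tdeg (1 + C X * w.1) ≤ m := by
    refine (tdeg_add_le _ _).trans (max_le ?_ ((t0 _).trans a1))
    rw [tdeg_one]; omega
  have d2 : (X ^ (d - k) + C X * w.2.1).natDegree ≤ d - k := by
    refine (natDegree_add_le _ _).trans (max_le ?_ ((c0 _).trans b2))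
    rw [natDegree_X_pow]
  have s2 : tdeg (X ^ (d - k) + C X * w.2.1) ≤ m := by
    refine (tdeg_add_le _ _).trans (max_le ?_ ((t0 _).trans a2))
    rw [tdeg_X_pow]; omega
  have d3 : (C X * w.2.2).natDegree ≤ d - k := (c0 _).trans b3
  have s3 : tdeg (C X * w.2.2) ≤ m := (t0 _).trans a3
  have hM := Mk_natDegree (F := F) k
  have e1 : (par d k w).1.natDegree ≤ d := by
    unfold par
    refine (natDegree_add_le _ _).trans (max_le ?_ ?_)
    · refine natDegree_mul_le.trans ?_
      have : (X : F[X][X]).natDegree ≤ 1 := natDegree_X_le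
      omega
    · refine natDegree_mul_le.trans ?_
      omega
  have e2 : (par d k w).2.natDegree ≤ d := by
    unfold par
    refine (natDegree_add_le _ _).trans (max_le ?_ ?_)
    · omega
    · refine natDegree_mul_le.trans ?_
      omega
  have u1 : tdeg (par d k w).1 < m + (tdeg (Mk F k) + 1) := by
    have : tdeg (par d k w).1 ≤ m + tdeg (Mk F k) := by
      unfold par
      refine (tdeg_add_le _ _).trans (max_le ?_ ?_)
      · refine (tdeg_mul_le _ _).trans ?_
        rw [tdeg_X]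
        omega
      · refine (tdeg_mul_le _ _).trans ?_
        omega
    omega
  have u2 : tdeg (par d k w).2 < m + (tdeg (Mk F k) + 1) := by
    have : tdeg (par d k w).2 ≤ m + tdeg (Mk F k) := by
      unfold par
      refine (tdeg_add_le _ _).trans (max_le ?_ ?_)
      · omega
      · refine (tdeg_mul_le _ _).trans ?_
        omega
    omega
  refine ⟨e1, e2, mem_U e1 u1, mem_U e2 u2, ?_⟩
  intro h0
  have h4 := congrArg (evalRingHom (0 : F)) h0
  rw [← resultant_map_map, map_zero] at h4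
  have m1 : (par d k w).1.map (evalRingHom (0 : F)) = X + X ^ d := by
    unfold par
    simp only [Polynomial.map_add, Polynomial.map_mul, Polynomial.map_pow, map_X, Polynomial.map_one,
      map_C, Mk_map, coe_evalRingHom, eval_X, C_0, zero_mul, add_zero, mul_one]
    rw [← pow_add]
    congr 2
    omega
  have m2 : (par d k w).2.map (evalRingHom (0 : F)) = 1 := by
    unfold par
    simp only [Polynomial.map_add, Polynomial.map_mul, Polynomial.map_pow, map_X, Polynomial.map_one,
      map_C, Mk_map, coe_evalRingHom, eval_X, C_0, zero_mul, add_zero, mul_zero]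
  rw [m1, m2, resultant_one_right] at h4
  have h5 : (X + X ^ d : F[X]).coeff d = 1 := by
    rw [coeff_add, coeff_X_pow, coeff_X, if_neg (by omega), if_pos rfl, zero_add]
  rw [h5, one_pow] at h4
  exact one_ne_zero h4

theorem par_pre [Fintype F] {d k m : ℕ} (hd : k + 2 ≤ d) (hm : 1 ≤ m)
    {w : F[X][X] × F[X][X] × F[X][X]}
    (h1 : w.1 ∈ U F k m) (h2 : w.2.1 ∈ U F (d - k + 1) m) (h3 : w.2.2 ∈ U F (d - k + 1) m) :
    k ≤ (PreR d (par d k w)).ncard := by
  classical
  obtain ⟨e1, e2, e3⟩ := par_mem hd hm h1 h2 h3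
  have hfin := preR_finite (by omega) e3
  let g : ℕ → F[X] × F[X] := fun i => (X ^ (i + 1), 1)
  have hg : Function.Injective g := by
    intro i j hij
    have h4 := congrArg (fun v => v.1.natDegree) hij
    simp only [g, natDegree_X_pow] at h4
    omega
  have hsub : (↑((Finset.range k).image g) : Set (F[X] × F[X])) ⊆ PreR d (par d k w) := by
    intro v hv
    rw [Finset.mem_coe, Finset.mem_image] at hv
    obtain ⟨i, hi, rfl⟩ := hv
    rw [Finset.mem_range] at hi
    refine ⟨⟨isCoprime_one_right, Or.inl monic_one⟩, 0, 1, one_pos, ?_⟩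
    simp only [Function.iterate_zero, id_eq, Function.iterate_one, ract, g]
    rw [hev_one e1, hev_one e2]
    unfold par
    simp only [eval_add, eval_mul, Mk_eval hi, eval_X, eval_one, eval_C, zero_mul, add_zero, one_mul]
  have h5 := Set.ncard_le_ncard hsub hfin
  rw [Set.ncard_coe_finset, Finset.card_image_of_injective _ hg, Finset.card_range] at h5
  exact h5

theorem par_inj {d k m : ℕ} {w w' : F[X][X] × F[X][X] × F[X][X]} (h1 : w.1 ∈ U F k m)
    (h1' : w'.1 ∈ U F k m) (h : par d k w = par d k w') : w = w' := by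
  have hX : (C X : F[X][X]) ≠ 0 := by
    rw [Ne, C_eq_zero]
    exact X_ne_zero
  have hM := (Mk_monic (F := F) k).ne_zero
  have e1 : (par d k w).1 = (par d k w').1 := by rw [h]
  have e2 : (par d k w).2 = (par d k w').2 := by rw [h]
  unfold par at e1 e2
  simp only at e1 e2
  have e3 : w.1 - w'.1 = Mk F k * (w'.2.2 - w.2.2) := by
    apply mul_left_cancel₀ hX
    linear_combination e2
  have e4 : w'.2.2 = w.2.2 := by
    by_contra hne
    have hne' : w'.2.2 - w.2.2 ≠ 0 := sub_ne_zero.mpr hne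
    have h5 := (U_sub h1 h1').1
    rw [e3, degree_mul, degree_eq_natDegree hM, Mk_natDegree, degree_eq_natDegree hne'] at h5
    have h6 : k + (w'.2.2 - w.2.2).natDegree < k := by exact_mod_cast h5
    omega
  have e5 : w.1 = w'.1 := by
    rw [e4, sub_self, mul_zero] at e3
    exact sub_eq_zero.mp e3
  have e6 : w.2.1 = w'.2.1 := by
    apply mul_left_cancel₀ hX
    apply mul_left_cancel₀ hM
    rw [e5] at e1
    linear_combination e1
  exact Prod.ext e5 (Prod.ext e6 e4.symm)

theorem ratS_finite [Fintype F] (d n : ℕ) : (RatS F d n).Finite ∧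
    (RatS F d n).ncard ≤ Fintype.card F ^ ((2 * d + 2) * n) := by
  obtain ⟨h1, h2⟩ := U_card (F := F) (d + 1) n
  have hsub : RatS F d n ⊆ (U F (d + 1) n) ×ˢ (U F (d + 1) n) := fun f hf => ⟨hf.1, hf.2.1⟩
  refine ⟨(h1.prod h1).subset hsub, ?_⟩
  refine (Set.ncard_le_ncard hsub (h1.prod h1)).trans ?_
  rw [Set.ncard_prod, h2, ← pow_add]
  apply le_of_eq
  congr 1
  ring

theorem lower [Fintype F] {d k : ℕ} (hd : k + 2 ≤ d) (m : ℕ) (hm : 1 ≤ m) :
    Fintype.card F ^ ((2 * d + 2 - k) * m) ≤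
      {f | f ∈ RatS F d (m + (tdeg (Mk F k) + 1)) ∧ k ≤ (PreR d f).ncard}.ncard := by
  obtain ⟨h1, h2⟩ := U_card (F := F) k m
  obtain ⟨h3, h4⟩ := U_card (F := F) (d - k + 1) m
  have hc : ((U F k m) ×ˢ ((U F (d - k + 1) m) ×ˢ (U F (d - k + 1) m))).ncard =
      Fintype.card F ^ ((2 * d + 2 - k) * m) := by
    rw [Set.ncard_prod, Set.ncard_prod, h2, h4, ← pow_add, ← pow_add]
    congr 1
    rw [← Nat.add_mul, ← Nat.add_mul]
    congr 1
    omega
  rw [← hc]
  refine Set.ncard_le_ncard_of_injOn (par d k) ?_ ?_ ?_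
  · rintro w ⟨w1, w2, w3⟩
    exact ⟨(par_mem hd hm w1 w2 w3).2.2, par_pre hd hm w1 w2 w3⟩
  · rintro w ⟨w1, -⟩ w' ⟨w1', -⟩ hww
    exact par_inj w1 w1' hww
  · exact (ratS_finite (F := F) d _).1.subset fun f hf => hf.1

end Pool.Agent.R414.FG
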