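import Pool.Agent.R414.FG.E

/-!
# The number of rational maps with many preperiodic points: final statement
-/

set_option autoImplicit false

open Polynomial Filter Topology Pool.Agent.R414.FF

namespace Pool.Agent.R414.FG

variable {F : Type*} [Field F]

theorem upper' [Fintype F] (k : ℕ) {d : ℕ} (hd : 21 * k + 5 ≤ d) (n : ℕ) :
    ({f | f ∈ RatS F d n ∧ k ≤ (PreR d f).ncard}.ncard : ℝ) ≤
      2 * (Fintype.card F : ℝ) ^ (4 * k) * (Fintype.card F : ℝ) ^ ((2 * d + 2 - k) * n) := by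
  have hq2 : (2 : ℝ) ≤ Fintype.card F := by
    exact_mod_cast (Fintype.one_lt_card : 1 < Fintype.card F)
  rcases k with _ | k
  · obtain ⟨h1, h2⟩ := ratS_finite (F := F) d n
    have h3 : {f | f ∈ RatS F d n ∧ 0 ≤ (PreR d f).ncard}.ncard ≤ (RatS F d n).ncard :=
      Set.ncard_le_ncard (fun f hf => hf.1) h1
    have h4 : ({f | f ∈ RatS F d n ∧ 0 ≤ (PreR d f).ncard}.ncard : ℝ) ≤
        (Fintype.card F : ℝ) ^ ((2 * d + 2) * n) := by exact_mod_cast h3.trans h2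
    refine h4.trans ?_
    have h5 : (0 : ℝ) ≤ (Fintype.card F : ℝ) ^ ((2 * d + 2) * n) := by positivity
    simp only [mul_zero, pow_zero, mul_one, Nat.sub_zero]
    linarith
  · exact (upper (F := F) k (by omega) n).2

theorem final [Fintype F] (k d : ℕ) (hd : 21 * k + 26 ≤ d) :
    (∀ n, (RatS F d n).Finite ∧ ∀ f ∈ RatS F d n, (PreR d f).Finite) ∧
    (∀ n : ℕ, ({f | f ∈ RatS F d n ∧ k ≤ (PreR d f).ncard}.ncard : ℝ) ≤
      2 * (Fintype.card F : ℝ) ^ (4 * k) * (Fintype.card F : ℝ) ^ ((2 * d + 2 - k) * n)) ∧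
    (∃ c : ℝ, 0 < c ∧ ∀ᶠ n : ℕ in atTop, c * (Fintype.card F : ℝ) ^ ((2 * d + 2 - k) * n) ≤
      ({f | f ∈ RatS F d n ∧ k ≤ (PreR d f).ncard}.ncard : ℝ)) ∧
    Tendsto (fun n : ℕ => ({f | f ∈ RatS F d n ∧ (PreR d f).ncard = k}.ncard : ℝ) /
      ({f | f ∈ RatS F d n ∧ k ≤ (PreR d f).ncard}.ncard : ℝ)) atTop (𝓝 1) := by
  classical
  set q : ℝ := (Fintype.card F : ℝ) with hq
  have hq2 : (2 : ℝ) ≤ q := by
    rw [hq]
    exact_mod_cast (Fintype.one_lt_card : 1 < Fintype.card F)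
  have hq0 : (0 : ℝ) < q := by linarith
  let A : ℕ → ℕ → Set (F[X][X] × F[X][X]) := fun k n =>
    {f | f ∈ RatS F d n ∧ k ≤ (PreR d f).ncard}
  have hAfin : ∀ k n, (A k n).Finite := fun k n =>
    (ratS_finite (F := F) d n).1.subset fun f hf => hf.1
  have hlow : ∃ c : ℝ, 0 < c ∧ ∀ᶠ n : ℕ in atTop, c * q ^ ((2 * d + 2 - k) * n) ≤
      ((A k n).ncard : ℝ) := by
    refine ⟨(q ^ ((2 * d + 2 - k) * (tdeg (Mk F k) + 1)))⁻¹, by positivity, ?_⟩
    filter_upwards [eventually_ge_atTop (tdeg (Mk F k) + 1 + 1)] with n hn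
    obtain ⟨m, rfl⟩ : ∃ m, n = m + (tdeg (Mk F k) + 1) := ⟨n - (tdeg (Mk F k) + 1), by omega⟩
    have h1 := lower (F := F) (d := d) (k := k) (by omega) m (by omega)
    have h2 : q ^ ((2 * d + 2 - k) * m) ≤ ((A k (m + (tdeg (Mk F k) + 1))).ncard : ℝ) := by
      rw [hq]
      exact_mod_cast h1
    refine le_trans (le_of_eq ?_) h2
    have e : q ^ ((2 * d + 2 - k) * (m + (tdeg (Mk F k) + 1))) =
        q ^ ((2 * d + 2 - k) * m) * q ^ ((2 * d + 2 - k) * (tdeg (Mk F k) + 1)) := by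
      rw [← pow_add]
      congr 1
      ring
    rw [e, mul_comm, mul_assoc, mul_inv_cancel₀ (by positivity), mul_one]
  have hup : ∀ n, ((A (k + 1) n).ncard : ℝ) ≤
      2 * q ^ (4 * (k + 1)) * q ^ ((2 * d + 2 - (k + 1)) * n) := fun n =>
    upper' (F := F) (k + 1) (by omega) n
  refine ⟨fun n => ⟨(ratS_finite (F := F) d n).1, fun f hf => preR_finite (by omega) hf⟩,
    fun n => upper' (F := F) k (by omega) n, hlow, ?_⟩
  obtain ⟨c, hc, hlow⟩ := hlow
  have hratio : Tendsto (fun n : ℕ => ((A (k + 1) n).ncard : ℝ) / ((A k n).ncard : ℝ)) atTop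
      (𝓝 0) := by
    have h1 : Tendsto (fun n : ℕ => (2 * q ^ (4 * (k + 1)) / c) * (1 / 2 : ℝ) ^ n) atTop (𝓝 0) := by
      have := (tendsto_pow_atTop_nhds_zero_of_lt_one (by norm_num : (0 : ℝ) ≤ 1 / 2)
        (by norm_num)).const_mul (2 * q ^ (4 * (k + 1)) / c)
      rwa [mul_zero] at this
    refine squeeze_zero' (Eventually.of_forall fun n => by positivity) ?_ h1
    filter_upwards [hlow] with n hn
    have h2 : q ^ ((2 * d + 2 - k) * n) = q ^ ((2 * d + 2 - (k + 1)) * n) * q ^ n := by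
      rw [← pow_add]
      congr 1
      obtain ⟨e, he⟩ : ∃ e, 2 * d + 2 = (k + 1) + e := ⟨2 * d + 2 - (k + 1), by omega⟩
      rw [he]
      have e1 : k + 1 + e - (k + 1) = e := by omega
      have e2 : k + 1 + e - k = e + 1 := by omega
      rw [e1, e2]
      ring
    have hpos : 0 < c * q ^ ((2 * d + 2 - k) * n) := by positivity
    calc ((A (k + 1) n).ncard : ℝ) / ((A k n).ncard : ℝ)
        ≤ (2 * q ^ (4 * (k + 1)) * q ^ ((2 * d + 2 - (k + 1)) * n)) /
          (c * q ^ ((2 * d + 2 - k) * n)) :=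
          div_le_div₀ (by positivity) (hup n) hpos hn
      _ = (2 * q ^ (4 * (k + 1)) / c) * (q ^ n)⁻¹ := by
          rw [h2]
          field_simp
      _ ≤ (2 * q ^ (4 * (k + 1)) / c) * (1 / 2 : ℝ) ^ n := by
          rw [one_div, inv_pow]
          gcongr
  have hfin : Tendsto (fun n : ℕ => 1 - ((A (k + 1) n).ncard : ℝ) / ((A k n).ncard : ℝ)) atTop
      (𝓝 1) := by
    have := (tendsto_const_nhds (x := (1 : ℝ))).sub hratio
    rwa [sub_zero] at this
  refine hfin.congr' ?_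
  filter_upwards [hlow] with n hn
  have hpos : (0 : ℝ) < ((A k n).ncard : ℝ) := lt_of_lt_of_le (by positivity) hn
  have hsub : A (k + 1) n ⊆ A k n := fun f hf => ⟨hf.1, by have := hf.2; omega⟩
  have hE : {f | f ∈ RatS F d n ∧ (PreR d f).ncard = k} = A k n \ A (k + 1) n := by
    ext f
    constructor
    · rintro ⟨h1, h2⟩
      exact ⟨⟨h1, h2.ge⟩, fun h3 => by have := h3.2; omega⟩
    · rintro ⟨⟨h1, h2⟩, h3⟩
      refine ⟨h1, ?_⟩
      by_contra h4
      exact h3 ⟨h1, by omega⟩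
  have hcard : ({f | f ∈ RatS F d n ∧ (PreR d f).ncard = k}.ncard : ℝ) =
      ((A k n).ncard : ℝ) - ((A (k + 1) n).ncard : ℝ) := by
    rw [hE]
    have h5 := Set.ncard_sdiff_add_ncard_of_subset hsub (hAfin k n)
    have h6 : ((A k n \ A (k + 1) n).ncard : ℝ) + ((A (k + 1) n).ncard : ℝ) =
        ((A k n).ncard : ℝ) := by exact_mod_cast h5
    linarith
  show 1 - ((A (k + 1) n).ncard : ℝ) / ((A k n).ncard : ℝ) =
    ({f | f ∈ RatS F d n ∧ (PreR d f).ncard = k}.ncard : ℝ) / ((A k n).ncard : ℝ)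
  rw [hcard, sub_div, div_self hpos.ne']

end Pool.Agent.R414.FG
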