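import Pool.Agent.R414.FG.G
import Pool.Agent.R414.FF.B

/-!
# Non-isotrivial rational maps
-/

set_option autoImplicit false

open Polynomial Filter Topology Pool.Agent.R414.FF

namespace Pool.Agent.R414.FG

variable {F : Type*} [Field F]

/-- the value at `(x, y)` of the form of degree `d` with coefficients `c` -/
noncomputable def evO (d : ℕ) (c : ℕ → Om F) (x y : Om F) : Om F :=
  ∑ j ∈ Finset.range (d + 1), c j * x ^ j * y ^ (d - j)

/-- the coefficients of `p` in the algebraic closure of `F(t)` -/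
noncomputable def cf (p : F[X][X]) : ℕ → Om F := fun j => algebraMap F[X] (Om F) (p.coeff j)

/-- `f` is conjugate over the algebraic closure of `F(t)` to a map with coefficients algebraic
over `F` -/
def IsoR (d : ℕ) (f : F[X][X] × F[X][X]) : Prop :=
  ∃ α β γ δ s : Om F, α * δ - β * γ ≠ 0 ∧ s ≠ 0 ∧ ∃ P R : ℕ → Om F,
    (∀ j, IsAlgebraic F (P j) ∧ IsAlgebraic F (R j)) ∧ ∀ x y : Om F,
      α * evO d (cf f.1) x y + β * evO d (cf f.2) x y =
        s * evO d P (α * x + β * y) (γ * x + δ * y) ∧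
      γ * evO d (cf f.1) x y + δ * evO d (cf f.2) x y =
        s * evO d R (α * x + β * y) (γ * x + δ * y)

theorem evO_one {d : ℕ} {p : F[X][X]} (hp : p.natDegree ≤ d) (z : Om F) :
    evO d (cf p) z 1 = aeval z p := by
  unfold evO cf
  rw [aeval_eq_sum_range' (Nat.lt_succ_of_le hp)]
  apply Finset.sum_congr rfl
  intro j _
  rw [one_pow, mul_one, Algebra.smul_def]

theorem evO_div {d : ℕ} {c : ℕ → Om F} {H : (Om F)[X]} (hH : H.natDegree ≤ d)
    (hc : ∀ j ≤ d, c j = H.coeff j) {x y : Om F} (hy : y ≠ 0) :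
    evO d c x y = y ^ d * H.eval (x / y) := by
  unfold evO
  rw [eval_eq_sum_range' (Nat.lt_succ_of_le hH), Finset.mul_sum]
  apply Finset.sum_congr rfl
  intro j hj
  rw [Finset.mem_range] at hj
  have e : y ^ d = y ^ j * y ^ (d - j) := by rw [← pow_add]; congr 1; omega
  rw [hc j (by omega), e, div_pow]
  field_simp

theorem evO_swap (d : ℕ) (c : ℕ → Om F) (x y : Om F) :
    evO d c x y = evO d (fun j => c (d - j)) y x := by
  unfold evO
  rw [← Finset.sum_range_reflect]
  apply Finset.sum_congr rfl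
  intro j hj
  rw [Finset.mem_range] at hj
  have e1 : d + 1 - 1 - j = d - j := by omega
  have e2 : d - (d - j) = j := by omega
  rw [e1, e2]
  ring

theorem key {d : ℕ} {p r Φ : F[X][X]} {a : F[X]}
    (hΦ : p - X * r = (X - C a) * Φ) (hΦa : Φ.eval a ≠ 0) (hra : r.eval a ≠ 0)
    {α β γ δ s : Om F} (hΔ : α * δ - β * γ ≠ 0) (hs : s ≠ 0) {P R : ℕ → Om F}
    (hPR : ∀ j, IsAlgebraic F (P j) ∧ IsAlgebraic F (R j))
    (h : ∀ z : Om F,
      α * aeval z p + β * aeval z r = s * evO d P (α * z + β) (γ * z + δ) ∧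
      γ * aeval z p + δ * aeval z r = s * evO d R (α * z + β) (γ * z + δ))
    (hw : γ * algebraMap F[X] (Om F) a + δ ≠ 0) :
    ∃ θ : Om F, IsAlgebraic F θ ∧
      algebraMap F[X] (Om F) (Φ.eval a) = algebraMap F[X] (Om F) (r.eval a) * θ := by
  classical
  set A := algebraMap F[X] (Om F) a with hA
  let L := algebraicClosure F (Om F)
  let P' : ℕ → L := fun j => ⟨P j, mem_algebraicClosure_iff.mpr (hPR j).1⟩
  let R' : ℕ → L := fun j => ⟨R j, mem_algebraicClosure_iff.mpr (hPR j).2⟩
  let PL : L[X] := ∑ j ∈ Finset.range (d + 1), C (P' j) * X ^ j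
  let RL : L[X] := ∑ j ∈ Finset.range (d + 1), C (R' j) * X ^ j
  let GG0 : L[X] := PL - X * RL
  set PP := PL.map (algebraMap L (Om F)) with hPP
  set RR := RL.map (algebraMap L (Om F)) with hRR
  set G := GG0.map (algebraMap L (Om F)) with hG
  have hnd : ∀ Q : ℕ → L, (∑ j ∈ Finset.range (d + 1), C (Q j) * X ^ j : L[X]).natDegree ≤ d := by
    intro Q
    apply natDegree_sum_le_of_forall_le
    intro j hj
    rw [Finset.mem_range] at hj
    exact (natDegree_C_mul_X_pow_le _ _).trans (by omega)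
  have hco : ∀ (Q : ℕ → L) (j : ℕ), j ≤ d →
      (∑ i ∈ Finset.range (d + 1), C (Q i) * X ^ i : L[X]).coeff j = Q j := by
    intro Q j hj
    rw [finsetSum_coeff, Finset.sum_eq_single j]
    · simp
    · intro i _ hi
      rw [coeff_C_mul, coeff_X_pow, if_neg (Ne.symm hi), mul_zero]
    · intro h1
      exact absurd (Finset.mem_range.mpr (by omega)) h1
  have hPPd : PP.natDegree ≤ d := natDegree_map_le.trans (hnd P')
  have hRRd : RR.natDegree ≤ d := natDegree_map_le.trans (hnd R')
  have hPc : ∀ j ≤ d, P j = PP.coeff j := by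
    intro j hj
    rw [hPP, coeff_map]
    show P j = algebraMap L (Om F) ((∑ i ∈ Finset.range (d + 1), C (P' i) * X ^ i : L[X]).coeff j)
    rw [hco P' j hj]
    rfl
  have hRc : ∀ j ≤ d, R j = RR.coeff j := by
    intro j hj
    rw [hRR, coeff_map]
    show R j = algebraMap L (Om F) ((∑ i ∈ Finset.range (d + 1), C (R' i) * X ^ i : L[X]).coeff j)
    rw [hco R' j hj]
    rfl
  have hGe : G = PP - X * RR := by
    rw [hG, hPP, hRR]
    simp only [GG0, Polynomial.map_sub, Polynomial.map_mul, map_X]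
  have hGd : G.natDegree ≤ d + 1 := by
    rw [hGe]
    refine (natDegree_sub_le _ _).trans (max_le (by omega) ?_)
    refine natDegree_mul_le.trans ?_
    have : (X : (Om F)[X]).natDegree ≤ 1 := natDegree_X_le
    omega
  have hrel : ∀ z : Om F, aeval z p - z * aeval z r = (z - A) * aeval z Φ := by
    intro z
    have := congrArg (aeval z) hΦ
    simpa using this
  have hmain : ∀ z : Om F, γ * z + δ ≠ 0 → (α * δ - β * γ) * ((z - A) * aeval z Φ) =
      s * ((γ * z + δ) ^ (d + 1) * G.eval ((α * z + β) / (γ * z + δ))) := by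
    intro z hz
    obtain ⟨h1, h2⟩ := h z
    rw [evO_div hPPd hPc hz] at h1
    rw [evO_div hRRd hRc hz] at h2
    rw [← hrel z, hGe, eval_sub, eval_mul, eval_X]
    have e1 : (α * δ - β * γ) * (aeval z p - z * aeval z r) =
        (α * aeval z p + β * aeval z r) * (γ * z + δ) -
          (γ * aeval z p + δ * aeval z r) * (α * z + β) := by ring
    rw [e1, h1, h2, pow_succ]
    field_simp
  set ζ := (α * A + β) / (γ * A + δ) with hζ
  have hroot : G.eval ζ = 0 := by
    have h1 := hmain A hw
    rw [sub_self, zero_mul, mul_zero] at h1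
    have h2 := mul_eq_zero.mp h1.symm
    rcases h2 with h2 | h2
    · exact absurd h2 hs
    · rcases mul_eq_zero.mp h2 with h3 | h3
      · exact absurd h3 (pow_ne_zero _ hw)
      · exact h3
  obtain ⟨H, hH⟩ : X - C ζ ∣ G := dvd_iff_isRoot.mpr hroot
  have hHd : H.natDegree ≤ d := by
    by_cases h0 : H = 0
    · rw [h0]; simp
    · have h1 : G.natDegree = 1 + H.natDegree := by
        rw [hH, natDegree_mul (X_sub_C_ne_zero ζ) h0, natDegree_X_sub_C]
      omega
  have hHζ : H.eval ζ = (derivative G).eval ζ := by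
    rw [hH, derivative_mul]
    simp
  have hstep : ∀ z : Om F, γ * z + δ ≠ 0 → z ≠ A →
      (γ * A + δ) * aeval z Φ = s * evO d (fun j => H.coeff j) (α * z + β) (γ * z + δ) := by
    intro z hz hzA
    have h1 := hmain z hz
    rw [hH, eval_mul, eval_sub, eval_X, eval_C, hζ] at h1
    rw [evO_div hHd (fun j _ => rfl) hz]
    have h2 : (α * z + β) / (γ * z + δ) - (α * A + β) / (γ * A + δ) =
        (α * δ - β * γ) * (z - A) / ((γ * z + δ) * (γ * A + δ)) := by
      rw [div_sub_div _ _ hz hw]
      congr 1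
      ring
    rw [h2] at h1
    have h3 : (α * δ - β * γ) * (z - A) ≠ 0 := mul_ne_zero hΔ (sub_ne_zero.mpr hzA)
    apply mul_left_cancel₀ h3
    set W := H.eval ((α * z + β) / (γ * z + δ)) with hW
    have h4 : s * ((γ * z + δ) ^ (d + 1) * ((α * δ - β * γ) * (z - A) /
        ((γ * z + δ) * (γ * A + δ)) * W)) * (γ * A + δ) =
        (α * δ - β * γ) * (z - A) * (s * ((γ * z + δ) ^ d * W)) := by
      rw [pow_succ]
      field_simp
    rw [← h4, ← h1]
    ring
  have hpoly : C (γ * A + δ) * Φ.map (algebraMap F[X] (Om F)) =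
      C s * ∑ j ∈ Finset.range (d + 1), C (H.coeff j) * (C α * X + C β) ^ j *
        (C γ * X + C δ) ^ (d - j) := by
    have hne : (X - C A) * (C γ * X + C δ) ≠ 0 := by
      apply mul_ne_zero (X_sub_C_ne_zero A)
      intro h0
      apply hw
      have := congrArg (eval A) h0
      simpa using this
    apply mul_left_cancel₀ hne
    apply Polynomial.funext
    intro z
    simp only [eval_mul, eval_sub, eval_add, eval_X, eval_C, eval_finsetSum, eval_pow,
      eval_map_algebraMap]
    by_cases hz : γ * z + δ = 0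
    · rw [hz]; ring
    · by_cases hzA : z = A
      · rw [hzA]; ring
      · have h5 := hstep z hz hzA
        unfold evO at h5
        rw [h5]
  have h6 : (γ * A + δ) * algebraMap F[X] (Om F) (Φ.eval a) =
      s * ((γ * A + δ) ^ d * H.eval ζ) := by
    have h7 := congrArg (eval A) hpoly
    simp only [eval_mul, eval_add, eval_X, eval_C, eval_finsetSum, eval_pow,
      eval_map_algebraMap] at h7
    have h8 : aeval A Φ = algebraMap F[X] (Om F) (Φ.eval a) := by
      rw [hA, aeval_algebraMap_apply, coe_aeval_eq_eval]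
    rw [h8] at h7
    rw [h7, ← evO_div hHd (fun j _ => rfl) hw]
    rfl
  have h9 : (γ * A + δ) * algebraMap F[X] (Om F) (r.eval a) =
      s * ((γ * A + δ) ^ d * RR.eval ζ) := by
    have h8 : aeval A r = algebraMap F[X] (Om F) (r.eval a) := by
      rw [hA, aeval_algebraMap_apply, coe_aeval_eq_eval]
    have h10 := (h A).2
    have h11 := hrel A
    rw [sub_self, zero_mul, sub_eq_zero] at h11
    rw [h11, evO_div hRRd hRc hw, h8] at h10
    rw [← h10]
    ring
  have hinj := alg_inj (F := F)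
  have hra' : algebraMap F[X] (Om F) (r.eval a) ≠ 0 := by
    rw [Ne, map_eq_zero_iff _ hinj]
    exact hra
  have hΦa' : algebraMap F[X] (Om F) (Φ.eval a) ≠ 0 := by
    rw [Ne, map_eq_zero_iff _ hinj]
    exact hΦa
  have hR0 : RR.eval ζ ≠ 0 := by
    intro h0
    rw [h0, mul_zero, mul_zero] at h9
    exact mul_ne_zero hw hra' h9
  have hH0 : H.eval ζ ≠ 0 := by
    intro h0
    rw [h0, mul_zero, mul_zero] at h6
    exact mul_ne_zero hw hΦa' h6
  have hG0 : GG0 ≠ 0 := by
    intro h0
    apply hH0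
    rw [hHζ, hG, h0]
    simp
  have hζL : ζ ∈ L := by
    have halg : IsAlgebraic L ζ := ⟨GG0, hG0, by rw [← eval_map_algebraMap]; exact hroot⟩
    exact mem_algebraicClosure_iff.mpr
      (isIntegral_trans (R := F) (A := L) ζ halg.isIntegral).isAlgebraic
  have hev : ∀ Q : L[X], (Q.map (algebraMap L (Om F))).eval ζ ∈ L := by
    intro Q
    have e : ζ = algebraMap L (Om F) ⟨ζ, hζL⟩ := rfl
    rw [e, eval_map_algebraMap, aeval_algebraMap_apply]
    exact SetLike.coe_mem _
  refine ⟨H.eval ζ / RR.eval ζ, ?_, ?_⟩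
  · apply mem_algebraicClosure_iff.mp
    apply _root_.div_mem
    · rw [hHζ, hG, derivative_map]
      exact hev _
    · exact hev _
  · apply mul_left_cancel₀ hw
    have e : (γ * A + δ) * (algebraMap F[X] (Om F) (r.eval a) * (H.eval ζ / RR.eval ζ)) =
        ((γ * A + δ) * algebraMap F[X] (Om F) (r.eval a)) * (H.eval ζ / RR.eval ζ) := by ring
    rw [h6, e, h9]
    field_simp

end Pool.Agent.R414.FG
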