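import Pool.Agent.R414.FG.J

/-!
# Counting non-isotrivial rational maps with many preperiodic points
-/

set_option autoImplicit false

open Polynomial Filter Topology Pool.Agent.R414.FF

namespace Pool.Agent.R414.FG

variable {F : Type*} [Field F]

theorem key' {d : ℕ} {p r Φ : F[X][X]} {a : F[X]}
    (hΦ : p - X * r = (X - C a) * Φ) (hΦa : Φ.eval a ≠ 0) (hra : r.eval a ≠ 0)
    {α β γ δ s : Om F} (hΔ : α * δ - β * γ ≠ 0) (hs : s ≠ 0) {P R : ℕ → Om F}
    (hPR : ∀ j, IsAlgebraic F (P j) ∧ IsAlgebraic F (R j))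
    (h : ∀ z : Om F,
      α * aeval z p + β * aeval z r = s * evO d P (α * z + β) (γ * z + δ) ∧
      γ * aeval z p + δ * aeval z r = s * evO d R (α * z + β) (γ * z + δ)) :
    ∃ θ : Om F, IsAlgebraic F θ ∧
      algebraMap F[X] (Om F) (Φ.eval a) = algebraMap F[X] (Om F) (r.eval a) * θ := by
  by_cases hw : γ * algebraMap F[X] (Om F) a + δ = 0
  · have hw' : α * algebraMap F[X] (Om F) a + β ≠ 0 := by
      intro h0
      apply hΔ
      linear_combination α * hw - γ * h0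
    refine key (d := d) hΦ hΦa hra (α := γ) (β := δ) (γ := α) (δ := β) (s := s)
      (P := fun j => R (d - j)) (R := fun j => P (d - j)) ?_ hs
      (fun j => ⟨(hPR (d - j)).2, (hPR (d - j)).1⟩) ?_ hw'
    · intro h0
      apply hΔ
      linear_combination -h0
    · intro z
      rw [← evO_swap, ← evO_swap]
      exact ⟨(h z).2, (h z).1⟩
  · exact key hΦ hΦa hra hΔ hs hPR h hw

theorem not_alg {u v : F[X]} (hu : u ≠ 0) (hu0 : u.eval 0 = 0) (hv : v.eval 0 = 1) {θ : Om F}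
    (hθ : IsAlgebraic F θ) (h : algebraMap F[X] (Om F) u = algebraMap F[X] (Om F) v * θ) :
    False := by
  have hinj := alg_inj (F := F)
  have hθ0 : θ ≠ 0 := by
    rintro rfl
    rw [mul_zero, map_eq_zero_iff _ hinj] at h
    exact hu h
  set g := minpoly F θ with hg
  have hg0 : g.coeff 0 ≠ 0 := minpoly.coeff_zero_ne_zero hθ.isIntegral hθ0
  set m := g.natDegree with hm
  let E : F[X] := ∑ j ∈ Finset.range (m + 1), C (g.coeff j) * u ^ j * v ^ (m - j)
  have hE : algebraMap F[X] (Om F) E = 0 := by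
    have h1 : algebraMap F[X] (Om F) E = (algebraMap F[X] (Om F) v) ^ m * aeval θ g := by
      simp only [E, map_sum, map_mul, map_pow]
      rw [aeval_eq_sum_range, Finset.mul_sum]
      apply Finset.sum_congr rfl
      intro j hj
      rw [Finset.mem_range] at hj
      have e : (algebraMap F[X] (Om F) v) ^ m =
          (algebraMap F[X] (Om F) v) ^ j * (algebraMap F[X] (Om F) v) ^ (m - j) := by
        rw [← pow_add]; congr 1; omega
      have e2 : algebraMap F[X] (Om F) (C (g.coeff j)) = algebraMap F (Om F) (g.coeff j) :=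
        (IsScalarTower.algebraMap_apply F F[X] (Om F) (g.coeff j)).symm
      rw [h, Algebra.smul_def, e, mul_pow, e2]
      ring
    rw [h1, hg, minpoly.aeval, mul_zero]
  rw [map_eq_zero_iff _ hinj] at hE
  have h2 := congrArg (eval 0) hE
  simp only [E, eval_finsetSum, eval_mul, eval_C, eval_pow, hu0, hv, one_pow, mul_one,
    eval_zero] at h2
  rw [Finset.sum_eq_single 0] at h2
  · simp only [pow_zero, mul_one] at h2
    exact hg0 h2
  · intro j _ hj
    rw [zero_pow hj, mul_zero]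
  · intro h3
    exact absurd (Finset.mem_range.mpr (by omega)) h3

/-- the parameters of a non-isotrivial map -/
noncomputable def sh (w : F[X][X] × F[X][X] × F[X][X]) : F[X][X] × F[X][X] × F[X][X] :=
  (w.1, 1 + C X * w.2.1, w.2.2)

theorem U_mono {s m : ℕ} {u : F[X][X]} (hu : u ∈ U F s m) : u ∈ U F s (m + 1) := by
  refine ⟨hu.1, fun j => lt_of_lt_of_le (hu.2 j) ?_⟩
  exact_mod_cast Nat.le_succ m

theorem shift_mem {s m : ℕ} (hm : 1 ≤ m) {b : F[X][X]} (hb : b ∈ U F (s + 1) m) :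
    1 + C X * b ∈ U F (s + 1) (m + 1) := by
  apply mem_U
  · refine (natDegree_add_le _ _).trans (max_le (by simp) ?_)
    exact (natDegree_C_mul_le _ _).trans (natDegree_le_of_U hb)
  · have h1 := tdeg_pred hb hm
    have h2 := tdeg_add_le 1 (C X * b)
    have h3 := tdeg_mul_le (C X) b
    have h4 := tdeg_CX (F := F)
    rw [tdeg_one] at h2
    omega

theorem Mk_succ (k : ℕ) : Mk F (k + 1) =
    (X - C X) * ∏ i ∈ Finset.range k, (X - C (X ^ (i + 2) : F[X])) := by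
  unfold Mk
  rw [Finset.prod_range_succ', mul_comm]
  simp

theorem par_not_iso {d k : ℕ} (hd : k + 3 ≤ d) (w : F[X][X] × F[X][X] × F[X][X])
    (h1 : (par d (k + 1) (sh w)).1.natDegree ≤ d) (h2 : (par d (k + 1) (sh w)).2.natDegree ≤ d) :
    ¬ IsoR d (par d (k + 1) (sh w)) := by
  rintro ⟨α, β, γ, δ, s, hΔ, hs, P, R, hPR, h⟩
  set M₁ : F[X][X] := ∏ i ∈ Finset.range k, (X - C (X ^ (i + 2) : F[X])) with hM₁
  set Φ : F[X][X] := M₁ * ((X ^ (d - (k + 1)) + C X * (1 + C X * w.2.1)) - X * (C X * w.2.2))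
    with hΦ
  obtain ⟨e, rfl⟩ : ∃ e, d = k + 1 + (e + 2) := ⟨d - (k + 3), by omega⟩
  have hde : k + 1 + (e + 2) - (k + 1) = e + 2 := by omega
  have hv : (par (k + 1 + (e + 2)) (k + 1) (sh w)).2.eval X = 1 + X * w.1.eval X := by
    unfold par sh
    rw [Mk_succ]
    simp
  have hu : Φ.eval X = M₁.eval X * (X * (X ^ (e + 1) + 1 + X * w.2.1.eval X -
      X * w.2.2.eval X)) := by
    rw [hΦ, hde]
    simp only [eval_mul, eval_sub, eval_add, eval_pow, eval_X, eval_C, eval_one]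
    ring
  have hM₁0 : M₁.eval X ≠ 0 := by
    rw [hM₁, eval_prod]
    apply Finset.prod_ne_zero_iff.mpr
    intro i _
    simp only [eval_sub, eval_X, eval_C]
    intro h0
    have h3 := congrArg natDegree (sub_eq_zero.mp h0)
    rw [natDegree_X, natDegree_X_pow] at h3
    omega
  have hT0 : (X ^ (e + 1) + 1 + X * w.2.1.eval X - X * w.2.2.eval X : F[X]) ≠ 0 := by
    intro h0
    have h3 := congrArg (eval 0) h0
    simp at h3
  have hu0 : Φ.eval X ≠ 0 := by
    rw [hu]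
    exact mul_ne_zero hM₁0 (mul_ne_zero X_ne_zero hT0)
  have hv0 : ((par (k + 1 + (e + 2)) (k + 1) (sh w)).2.eval X).eval 0 = 1 := by
    rw [hv]
    simp
  obtain ⟨θ, hθ, hθe⟩ := key' (d := k + 1 + (e + 2))
    (p := (par (k + 1 + (e + 2)) (k + 1) (sh w)).1)
    (r := (par (k + 1 + (e + 2)) (k + 1) (sh w)).2) (Φ := Φ) (a := X)
    (by
      rw [hΦ, hM₁]
      unfold par sh
      rw [Mk_succ]
      simp only
      ring)
    hu0 (by
      intro h0
      rw [h0] at hv0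
      simp at hv0) hΔ hs hPR (by
      intro z
      have := h z 1
      rw [evO_one h1, evO_one h2, mul_one, mul_one] at this
      exact this)
  refine not_alg hu0 ?_ hv0 hθ hθe
  rw [hu]
  simp

theorem lower' [Fintype F] {d k : ℕ} (hd : k + 3 ≤ d) (m : ℕ) (hm : 1 ≤ m) :
    Fintype.card F ^ ((2 * d + 2 - (k + 1)) * m) ≤
      {f | f ∈ RatS F d (m + 1 + (tdeg (Mk F (k + 1)) + 1)) ∧ ¬ IsoR d f ∧
        k + 1 ≤ (PreR d f).ncard}.ncard := by
  obtain ⟨h1, h2⟩ := U_card (F := F) (k + 1) m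
  obtain ⟨h3, h4⟩ := U_card (F := F) (d - (k + 1) + 1) m
  have hc : ((U F (k + 1) m) ×ˢ
      ((U F (d - (k + 1) + 1) m) ×ˢ (U F (d - (k + 1) + 1) m))).ncard =
      Fintype.card F ^ ((2 * d + 2 - (k + 1)) * m) := by
    rw [Set.ncard_prod, Set.ncard_prod, h2, h4, ← pow_add, ← pow_add]
    congr 1
    rw [← Nat.add_mul, ← Nat.add_mul]
    congr 1
    omega
  rw [← hc]
  refine Set.ncard_le_ncard_of_injOn (fun w => par d (k + 1) (sh w)) ?_ ?_ ?_
  · rintro w ⟨w1, w2, w3⟩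
    have a1 : (sh w).1 ∈ U F (k + 1) (m + 1) := U_mono w1
    have a2 : (sh w).2.1 ∈ U F (d - (k + 1) + 1) (m + 1) := shift_mem hm w2
    have a3 : (sh w).2.2 ∈ U F (d - (k + 1) + 1) (m + 1) := U_mono w3
    obtain ⟨b1, b2, b3⟩ := par_mem (by omega) (by omega) a1 a2 a3
    exact ⟨b3, par_not_iso hd w b1 b2, par_pre (by omega) (by omega) a1 a2 a3⟩
  · rintro w ⟨w1, -⟩ w' ⟨w1', -⟩ hww
    have h5 := par_inj (F := F) (m := m) (w := sh w) (w' := sh w') w1 w1' hww
    have e1' : (sh w).1 = (sh w').1 := by rw [h5]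
    have e2' : (sh w).2.1 = (sh w').2.1 := by rw [h5]
    have e3' : (sh w).2.2 = (sh w').2.2 := by rw [h5]
    have e1 : w.1 = w'.1 := e1'
    have e2 : 1 + C X * w.2.1 = 1 + C X * w'.2.1 := e2'
    have e3 : w.2.2 = w'.2.2 := e3'
    have hX : (C X : F[X][X]) ≠ 0 := by
      rw [Ne, C_eq_zero]
      exact X_ne_zero
    exact Prod.ext e1 (Prod.ext (mul_left_cancel₀ hX (add_left_cancel e2)) e3)
  · exact (ratS_finite (F := F) d _).1.subset fun f hf => hf.1

theorem final' [Fintype F] (k d : ℕ) (hk : 1 ≤ k) (hd : 21 * k + 26 ≤ d) :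
    (∃ c : ℝ, 0 < c ∧ ∀ᶠ n : ℕ in atTop, c * (Fintype.card F : ℝ) ^ ((2 * d + 2 - k) * n) ≤
      ({f | f ∈ RatS F d n ∧ ¬ IsoR d f ∧ k ≤ (PreR d f).ncard}.ncard : ℝ)) ∧
    Tendsto (fun n : ℕ => ({f | f ∈ RatS F d n ∧ ¬ IsoR d f ∧ (PreR d f).ncard = k}.ncard : ℝ) /
      ({f | f ∈ RatS F d n ∧ ¬ IsoR d f ∧ k ≤ (PreR d f).ncard}.ncard : ℝ)) atTop (𝓝 1) := by
  classical
  set q : ℝ := (Fintype.card F : ℝ) with hq
  have hq2 : (2 : ℝ) ≤ q := by
    rw [hq]
    exact_mod_cast (Fintype.one_lt_card : 1 < Fintype.card F)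
  have hq0 : (0 : ℝ) < q := by linarith
  let A : ℕ → ℕ → Set (F[X][X] × F[X][X]) := fun k n =>
    {f | f ∈ RatS F d n ∧ ¬ IsoR d f ∧ k ≤ (PreR d f).ncard}
  have hAfin : ∀ k n, (A k n).Finite := fun k n =>
    (ratS_finite (F := F) d n).1.subset fun f hf => hf.1
  obtain ⟨k', rfl⟩ : ∃ k', k = k' + 1 := ⟨k - 1, by omega⟩
  set T := tdeg (Mk F (k' + 1)) + 2 with hT
  have hlow : ∃ c : ℝ, 0 < c ∧ ∀ᶠ n : ℕ in atTop, c * q ^ ((2 * d + 2 - (k' + 1)) * n) ≤
      ((A (k' + 1) n).ncard : ℝ) := by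
    refine ⟨(q ^ ((2 * d + 2 - (k' + 1)) * T))⁻¹, by positivity, ?_⟩
    filter_upwards [eventually_ge_atTop (T + 1)] with n hn
    obtain ⟨m, rfl⟩ : ∃ m, n = m + T := ⟨n - T, by omega⟩
    have h1 := lower' (F := F) (d := d) (k := k') (by omega) m (by omega)
    have e0 : m + 1 + (tdeg (Mk F (k' + 1)) + 1) = m + T := by omega
    rw [e0] at h1
    have h2 : q ^ ((2 * d + 2 - (k' + 1)) * m) ≤ ((A (k' + 1) (m + T)).ncard : ℝ) := by
      rw [hq]
      exact_mod_cast h1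
    refine le_trans (le_of_eq ?_) h2
    have e : q ^ ((2 * d + 2 - (k' + 1)) * (m + T)) =
        q ^ ((2 * d + 2 - (k' + 1)) * m) * q ^ ((2 * d + 2 - (k' + 1)) * T) := by
      rw [← pow_add]
      congr 1
      ring
    rw [e, mul_comm, mul_assoc, mul_inv_cancel₀ (by positivity), mul_one]
  refine ⟨hlow, ?_⟩
  generalize k' + 1 = k at *
  have hup : ∀ n, ((A (k + 1) n).ncard : ℝ) ≤
      2 * q ^ (4 * (k + 1)) * q ^ ((2 * d + 2 - (k + 1)) * n) := fun n => by
    refine le_trans ?_ (upper' (F := F) (k + 1) (by omega) n)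
    have h0 : A (k + 1) n ⊆ {f | f ∈ RatS F d n ∧ k + 1 ≤ (PreR d f).ncard} :=
      fun f hf => ⟨hf.1, hf.2.2⟩
    exact_mod_cast Set.ncard_le_ncard h0
      ((ratS_finite (F := F) d n).1.subset fun f hf => hf.1)
  obtain ⟨c, hc, hlow⟩ := hlow
  have hratio : Tendsto (fun n : ℕ => ((A (k + 1) n).ncard : ℝ) / ((A k n).ncard : ℝ)) atTop
      (𝓝 0) := by
    have h1 : Tendsto (fun n : ℕ => (2 * q ^ (4 * (k + 1)) / c) * (1 / 2 : ℝ) ^ n) atTop (𝓝 0) := by
      have := (tendsto_pow_atTop_nhds_zero_of_lt_one (by norm_num : (0 : ℝ) ≤ 1 / 2)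
        (by norm_num)).const_mul (2 * q ^ (4 * (k + 1)) / c)
      rwa [mul_zero] at this
    refine squeeze_zero' (Eventually.of_forall fun n => by positivity) ?_ h1
    filter_upwards [hlow] with n hn
    have h2 : q ^ ((2 * d + 2 - k) * n) = q ^ ((2 * d + 2 - (k + 1)) * n) * q ^ n := by
      rw [← pow_add]
      congr 1
      obtain ⟨e, he⟩ : ∃ e, 2 * d + 2 = (k + 1) + e := ⟨2 * d + 2 - (k + 1), by omega⟩
      rw [he]
      have e1 : k + 1 + e - (k + 1) = e := by omega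
      have e2 : k + 1 + e - k = e + 1 := by omega
      rw [e1, e2]
      ring
    have hpos : 0 < c * q ^ ((2 * d + 2 - k) * n) := by positivity
    calc ((A (k + 1) n).ncard : ℝ) / ((A k n).ncard : ℝ)
        ≤ (2 * q ^ (4 * (k + 1)) * q ^ ((2 * d + 2 - (k + 1)) * n)) /
          (c * q ^ ((2 * d + 2 - k) * n)) :=
          div_le_div₀ (by positivity) (hup n) hpos hn
      _ = (2 * q ^ (4 * (k + 1)) / c) * (q ^ n)⁻¹ := by
          rw [h2]
          field_simp
      _ ≤ (2 * q ^ (4 * (k + 1)) / c) * (1 / 2 : ℝ) ^ n := by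
          rw [one_div, inv_pow]
          gcongr
  have hfin : Tendsto (fun n : ℕ => 1 - ((A (k + 1) n).ncard : ℝ) / ((A k n).ncard : ℝ)) atTop
      (𝓝 1) := by
    have := (tendsto_const_nhds (x := (1 : ℝ))).sub hratio
    rwa [sub_zero] at this
  refine hfin.congr' ?_
  filter_upwards [hlow] with n hn
  have hpos : (0 : ℝ) < ((A k n).ncard : ℝ) := lt_of_lt_of_le (by positivity) hn
  have hsub : A (k + 1) n ⊆ A k n := fun f hf => ⟨hf.1, hf.2.1, by have := hf.2.2; omega⟩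
  have hE : {f | f ∈ RatS F d n ∧ ¬ IsoR d f ∧ (PreR d f).ncard = k} = A k n \ A (k + 1) n := by
    ext f
    constructor
    · rintro ⟨h1, h0, h2⟩
      exact ⟨⟨h1, h0, h2.ge⟩, fun h3 => by have := h3.2.2; omega⟩
    · rintro ⟨⟨h1, h0, h2⟩, h3⟩
      refine ⟨h1, h0, ?_⟩
      by_contra h4
      exact h3 ⟨h1, h0, by omega⟩
  have hcard : ({f | f ∈ RatS F d n ∧ ¬ IsoR d f ∧ (PreR d f).ncard = k}.ncard : ℝ) =
      ((A k n).ncard : ℝ) - ((A (k + 1) n).ncard : ℝ) := by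
    rw [hE]
    have h5 := Set.ncard_sdiff_add_ncard_of_subset hsub (hAfin k n)
    have h6 : ((A k n \ A (k + 1) n).ncard : ℝ) + ((A (k + 1) n).ncard : ℝ) =
        ((A k n).ncard : ℝ) := by exact_mod_cast h5
    linarith
  show 1 - ((A (k + 1) n).ncard : ℝ) / ((A k n).ncard : ℝ) =
    ({f | f ∈ RatS F d n ∧ ¬ IsoR d f ∧ (PreR d f).ncard = k}.ncard : ℝ) / ((A k n).ncard : ℝ)
  rw [hcard, sub_div, div_self hpos.ne']

end Pool.Agent.R414.FG
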